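import Mathlib

set_option autoImplicit false

/-! Lower bound for the sum of reciprocals of the primes in `(Z^8, Z^9]`. -/

namespace Pool.Agent.W11.Hahn

open Finset Real Chebyshev

lemma log_le_quarter {y : ℝ} (hy : 1 ≤ y) : Real.log y ≤ 4 * y ^ (1 / 4 : ℝ) := by
  have h := Real.log_le_rpow_div (x := y) (by linarith) (ε := 1 / 4) (by norm_num)
  calc Real.log y ≤ y ^ (1 / 4 : ℝ) / (1 / 4) := h
    _ = 4 * y ^ (1 / 4 : ℝ) := by ring

lemma theta_diff {x : ℝ} (hx : 10000000 ≤ x) : x / 4 ≤ θ (3 * x) - θ x := by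
  have h1 := theta_le_log4_mul_x (x := x) (by linarith)
  have h2 := theta_ge' (x := 3 * x) (by linarith)
  have hlog2 : 0.6931471803 < Real.log 2 := Real.log_two_gt_d9
  have hlog2' : Real.log 2 < 0.6931471808 := Real.log_two_lt_d9
  have hlog4 : Real.log 4 = 2 * Real.log 2 := by
    rw [show (4 : ℝ) = 2 ^ 2 by norm_num, Real.log_pow]; norm_num
  set y : ℝ := 3 * x with hy
  have hy1 : 1 ≤ y := by linarith
  have hy0 : 0 < y := by linarith
  set s : ℝ := y ^ (1 / 4 : ℝ) with hs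
  have hs0 : 0 < s := Real.rpow_pos_of_pos hy0 _
  have hs4 : s ^ 4 = y := by
    rw [hs, ← Real.rpow_natCast, ← Real.rpow_mul hy0.le]; norm_num
  have hsq : √y = s ^ 2 := by
    rw [Real.sqrt_eq_iff_mul_self_eq hy0.le (by positivity)]
    rw [← hs4]; ring
  have hly : Real.log y ≤ 4 * s := log_le_quarter hy1
  have hly2 : Real.log (y + 2) ≤ 2 + 4 * s := by
    have h3 : Real.log (y + 2) ≤ Real.log (3 * y) := Real.log_le_log (by linarith) (by linarith)
    have h4 : Real.log (3 * y) = Real.log 3 + Real.log y := Real.log_mul (by norm_num) hy0.ne'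
    have h5 : Real.log 3 ≤ 2 := by
      have := Real.log_le_sub_one_of_pos (show (0 : ℝ) < 3 by norm_num)
      linarith
    linarith
  have hs60 : 60 ≤ s := by
    by_contra hcon
    push Not at hcon
    have : s ^ 4 < 60 ^ 4 := pow_lt_pow_left₀ hcon hs0.le (by norm_num)
    rw [hs4] at this
    norm_num at this
    linarith
  have hxs : x = s ^ 4 / 3 := by rw [hs4]; linarith
  have hsl : 2 * √y * Real.log y ≤ 8 * s ^ 3 := by
    rw [hsq]
    have : 2 * s ^ 2 * Real.log y ≤ 2 * s ^ 2 * (4 * s) := by gcongr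
    linarith
  rw [hlog4] at h1
  have hx0 : 0 < x := by linarith
  have key : 8 * s ^ 3 + 4 * s + 3 ≤ (Real.log 2 - 1 / 4) * x := by
    have h6 : (0.44 : ℝ) * x ≤ (Real.log 2 - 1 / 4) * x := by
      apply mul_le_mul_of_nonneg_right _ hx0.le
      linarith
    have h7 : 8 * s ^ 3 + 4 * s + 3 ≤ 0.44 * x := by
      rw [hxs]
      have h8 : 60 * s ^ 3 ≤ s ^ 4 := by
        have : s ^ 4 = s * s ^ 3 := by ring
        rw [this]; gcongr
      have h9 : 3600 * s ≤ s ^ 3 := by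
        have : s ^ 3 = (s * s) * s := by ring
        rw [this]; gcongr; nlinarith
      nlinarith
    linarith
  nlinarith

lemma block_recip {x : ℕ} (hx : 10000000 ≤ x) :
    1 / (12 * Real.log (3 * x)) ≤
      ∑ p ∈ (Ioc x (3 * x)).filter Nat.Prime, (1 : ℝ) / p := by
  have hxr : (10000000 : ℝ) ≤ x := by exact_mod_cast hx
  have h := theta_diff hxr
  have hx0 : (0 : ℝ) < x := by linarith
  have hlog : 0 < Real.log (3 * x) := Real.log_pos (by linarith)
  have e1 : θ (3 * (x : ℝ)) = ∑ p ∈ (Ioc 0 (3 * x)).filter Nat.Prime, Real.log p := by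
    have : ⌊3 * (x : ℝ)⌋₊ = 3 * x := by
      have : (3 * (x : ℝ)) = ((3 * x : ℕ) : ℝ) := by push_cast; ring
      rw [this, Nat.floor_natCast]
    rw [theta, this]
  have e2 : θ (x : ℝ) = ∑ p ∈ (Ioc 0 x).filter Nat.Prime, Real.log p := by
    rw [theta, Nat.floor_natCast]
  have e3 : θ (3 * (x : ℝ)) - θ x = ∑ p ∈ (Ioc x (3 * x)).filter Nat.Prime, Real.log p := by
    rw [e1, e2, sub_eq_iff_eq_add, ← Finset.sum_union]
    · congr 1
      ext p
      simp only [mem_filter, mem_Ioc, mem_union]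
      constructor
      · rintro ⟨⟨a, b⟩, c⟩
        by_cases hp : p ≤ x
        · right; exact ⟨⟨a, hp⟩, c⟩
        · left; exact ⟨⟨by omega, b⟩, c⟩
      · rintro (⟨⟨a, b⟩, c⟩ | ⟨⟨a, b⟩, c⟩)
        · exact ⟨⟨by omega, b⟩, c⟩
        · exact ⟨⟨a, by omega⟩, c⟩
    · rw [Finset.disjoint_left]
      intro p hp hq
      simp only [mem_filter, mem_Ioc] at hp hq
      omega
  rw [e3] at h
  have h2 : ∑ p ∈ (Ioc x (3 * x)).filter Nat.Prime, Real.log p ≤
      ∑ p ∈ (Ioc x (3 * x)).filter Nat.Prime, (3 * x * Real.log (3 * x)) * ((1 : ℝ) / p) := by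
    apply Finset.sum_le_sum
    intro p hp
    simp only [mem_filter, mem_Ioc] at hp
    have hp0 : (0 : ℝ) < p := by exact_mod_cast (by omega : 0 < p)
    have hp3 : (p : ℝ) ≤ 3 * x := by exact_mod_cast hp.1.2
    have hl : Real.log p ≤ Real.log (3 * x) := Real.log_le_log hp0 hp3
    have hp1 : 1 ≤ (3 * x : ℝ) * (1 / p) := by
      rw [mul_one_div, le_div_iff₀ hp0]; linarith
    calc Real.log p ≤ Real.log (3 * x) := hl
      _ = Real.log (3 * x) * 1 := by ring
      _ ≤ Real.log (3 * x) * ((3 * x : ℝ) * (1 / p)) := by gcongr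
      _ = (3 * x * Real.log (3 * x)) * ((1 : ℝ) / p) := by ring
  rw [← Finset.mul_sum] at h2
  have h3 : (x : ℝ) / 4 ≤ (3 * x * Real.log (3 * x)) *
      ∑ p ∈ (Ioc x (3 * x)).filter Nat.Prime, (1 : ℝ) / p := h.trans h2
  rw [div_le_iff₀ (by positivity)]
  have h4 : (x : ℝ) * 1 ≤ x * ((∑ p ∈ (Ioc x (3 * x)).filter Nat.Prime, (1 : ℝ) / p) *
      (12 * Real.log (3 * x))) := by
    nlinarith
  exact le_of_mul_le_mul_left h4 hx0

lemma blocks_recip {x : ℕ} (hx : 10000000 ≤ x) (W : ℝ) (I : ℕ)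
    (hW : ∀ i < I, Real.log (3 * ((x * 3 ^ i : ℕ) : ℝ)) ≤ W) (_hW0 : 0 < W) :
    (I : ℝ) / (12 * W) ≤ ∑ p ∈ (Ioc x (x * 3 ^ I)).filter Nat.Prime, (1 : ℝ) / p := by
  induction I with
  | zero => simp
  | succ I ih =>
    have ih' := ih (fun i hi => hW i (by omega))
    have hb := block_recip (x := x * 3 ^ I) (hx.trans (Nat.le_mul_of_pos_right _ (by positivity)))
    have hWI := hW I (by omega)
    have hsub : (Ioc x (x * 3 ^ (I + 1))).filter Nat.Prime =
        (Ioc x (x * 3 ^ I)).filter Nat.Prime ∪ (Ioc (x * 3 ^ I) (3 * (x * 3 ^ I))).filter Nat.Prime := by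
      have e : 3 * (x * 3 ^ I) = x * 3 ^ (I + 1) := by ring
      have hle : x ≤ x * 3 ^ I := Nat.le_mul_of_pos_right _ (by positivity)
      rw [e]
      ext p
      simp only [mem_filter, mem_Ioc, mem_union]
      have hle2 : x * 3 ^ I ≤ x * 3 ^ (I + 1) := by
        rw [← e]; omega
      constructor
      · rintro ⟨⟨a, b⟩, c⟩
        by_cases hp : p ≤ x * 3 ^ I
        · left; exact ⟨⟨a, hp⟩, c⟩
        · right; exact ⟨⟨by omega, b⟩, c⟩
      · rintro (⟨⟨a, b⟩, c⟩ | ⟨⟨a, b⟩, c⟩)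
        · exact ⟨⟨a, by omega⟩, c⟩
        · exact ⟨⟨by omega, by omega⟩, c⟩
    rw [hsub, Finset.sum_union]
    · have hpos : 0 < Real.log (3 * ((x * 3 ^ I : ℕ) : ℝ)) := by
        apply Real.log_pos
        have : (10000000 : ℝ) ≤ ((x * 3 ^ I : ℕ) : ℝ) := by
          exact_mod_cast hx.trans (Nat.le_mul_of_pos_right _ (by positivity))
        linarith
      have h5 : 1 / (12 * W) ≤ 1 / (12 * Real.log (3 * ((x * 3 ^ I : ℕ) : ℝ))) := by
        apply one_div_le_one_div_of_le (by positivity)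
        linarith
      have h6 : ((I + 1 : ℕ) : ℝ) / (12 * W) = I / (12 * W) + 1 / (12 * W) := by
        push_cast; ring
      rw [h6]
      have := h5.trans hb
      linarith
    · rw [Finset.disjoint_left]
      intro p hp hq
      simp only [mem_filter, mem_Ioc] at hp hq
      omega

theorem prime_recip_block : ∃ c0 : ℝ, 0 < c0 ∧ c0 ≤ 1 ∧ ∃ Z0 : ℕ, ∀ Z : ℕ, Z0 ≤ Z →
    c0 ≤ ∑ p ∈ (Ioc (Z ^ 8) (Z ^ 9)).filter Nat.Prime, (1 : ℝ) / p := by
  refine ⟨1 / 300, by norm_num, by norm_num, 100, fun Z hZ => ?_⟩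
  set I := Nat.log 3 Z with hI
  have hZ0 : Z ≠ 0 := by omega
  have h3I : 3 ^ I ≤ Z := Nat.pow_log_le_self 3 hZ0
  have hZ8 : 10000000 ≤ Z ^ 8 := by
    calc 10000000 ≤ 100 ^ 8 := by norm_num
      _ ≤ Z ^ 8 := Nat.pow_le_pow_left hZ 8
  have hZr : (100 : ℝ) ≤ Z := by exact_mod_cast hZ
  have hlogZ : 0 < Real.log Z := Real.log_pos (by linarith)
  have hb := blocks_recip (x := Z ^ 8) hZ8 (9 * Real.log Z) I (by
    intro i hi
    have h1 : 3 * (Z ^ 8 * 3 ^ i) ≤ Z ^ 9 := by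
      have h2 : 3 ^ (i + 1) ≤ 3 ^ I := Nat.pow_le_pow_right (by norm_num) (by omega)
      calc 3 * (Z ^ 8 * 3 ^ i) = Z ^ 8 * 3 ^ (i + 1) := by ring
        _ ≤ Z ^ 8 * Z := Nat.mul_le_mul_left _ (h2.trans h3I)
        _ = Z ^ 9 := by ring
    have h3 : (3 * ((Z ^ 8 * 3 ^ i : ℕ) : ℝ)) ≤ (Z : ℝ) ^ 9 := by exact_mod_cast h1
    have h4 : 0 < (3 * ((Z ^ 8 * 3 ^ i : ℕ) : ℝ)) := by positivity
    calc Real.log (3 * ((Z ^ 8 * 3 ^ i : ℕ) : ℝ)) ≤ Real.log ((Z : ℝ) ^ 9) := Real.log_le_log h4 h3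
      _ = 9 * Real.log Z := by rw [Real.log_pow]; norm_num) (by positivity)
  have hsub : (Ioc (Z ^ 8) (Z ^ 8 * 3 ^ I)).filter Nat.Prime ⊆
      (Ioc (Z ^ 8) (Z ^ 9)).filter Nat.Prime := by
    intro p hp
    simp only [mem_filter, mem_Ioc] at hp ⊢
    refine ⟨⟨hp.1.1, hp.1.2.trans ?_⟩, hp.2⟩
    calc Z ^ 8 * 3 ^ I ≤ Z ^ 8 * Z := Nat.mul_le_mul_left _ h3I
      _ = Z ^ 9 := by ring
  have hmono : ∑ p ∈ (Ioc (Z ^ 8) (Z ^ 8 * 3 ^ I)).filter Nat.Prime, (1 : ℝ) / p ≤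
      ∑ p ∈ (Ioc (Z ^ 8) (Z ^ 9)).filter Nat.Prime, (1 : ℝ) / p :=
    Finset.sum_le_sum_of_subset_of_nonneg hsub (fun _ _ _ => by positivity)
  refine le_trans ?_ (hb.trans hmono)
  rw [le_div_iff₀ (by positivity)]
  -- I + 1 > log Z / log 3
  have h5 : Z < 3 ^ (I + 1) := Nat.lt_pow_succ_log_self (by norm_num) Z
  have h6 : Real.log Z ≤ (I + 1) * Real.log 3 := by
    have h7 : (Z : ℝ) ≤ 3 ^ (I + 1) := by exact_mod_cast h5.le
    have h8 := Real.log_le_log (by linarith) h7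
    rw [Real.log_pow] at h8
    push_cast at h8
    exact h8
  have h9 : Real.log 3 ≤ 1.1 := by
    have h10 : Real.log 3 = Real.log 2 + Real.log (3 / 2) := by
      rw [← Real.log_mul (by norm_num) (by norm_num)]; norm_num
    have h11 : Real.log (3 / 2) ≤ 0.406 := by
      have h17 : Real.exp (0.406) ≥ 3 / 2 := by
        have h18 := Real.sum_le_exp_of_nonneg (show (0:ℝ) ≤ 0.406 by norm_num) 6
        simp [Finset.sum_range_succ, Nat.factorial] at h18
        norm_num at h18 ⊢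
        linarith
      have h19 := Real.log_le_log (show (0:ℝ) < 3 / 2 by norm_num) h17
      rw [Real.log_exp] at h19
      exact h19
    have := Real.log_two_lt_d9
    linarith
  have h10 : Real.log Z ≤ (I + 1) * 1.1 := by
    refine h6.trans ?_
    gcongr
  have h11 : 4 ≤ Real.log Z := by
    have h12 : Real.log (100 : ℝ) ≤ Real.log Z := Real.log_le_log (by norm_num) hZr
    have h13 : (4 : ℝ) ≤ Real.log 100 := by
      rw [Real.le_log_iff_exp_le (by norm_num)]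
      have h14 : Real.exp 4 = Real.exp 1 ^ 4 := by
        rw [← Real.exp_nat_mul]; norm_num
      rw [h14]
      have h15 := Real.exp_one_lt_d9
      have h16 : Real.exp 1 ^ 4 ≤ 2.7182818286 ^ 4 := by
        gcongr
      refine h16.trans ?_
      norm_num
    linarith
  nlinarith

end Pool.Agent.W11.Hahn
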