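import Mathlib

set_option autoImplicit false

/-! The Fourier-analytic part: a random subset of `A` has integral reciprocal sum. -/

namespace Pool.Agent.W11.Hahn

open Finset

/-- `e(x) = exp(2 π i x)` -/
noncomputable def E (x : ℝ) : ℂ := Complex.exp ((2 * Real.pi * x : ℝ) * Complex.I)

lemma E_add (x y : ℝ) : E (x + y) = E x * E y := by
  unfold E
  rw [← Complex.exp_add]
  congr 1
  push_cast
  ring

lemma E_zero : E 0 = 1 := by simp [E]

lemma E_int (k : ℤ) : E (k : ℝ) = 1 := by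
  unfold E
  rw [Complex.exp_eq_one_iff]
  exact ⟨k, by push_cast; ring⟩

lemma E_norm (x : ℝ) : ‖E x‖ = 1 := by
  unfold E
  exact Complex.norm_exp_ofReal_mul_I _

lemma E_nat_mul (n : ℕ) (x : ℝ) : E (n * x) = E x ^ n := by
  unfold E
  rw [← Complex.exp_nat_mul]
  congr 1
  push_cast
  ring

lemma E_eq_one {x : ℝ} (h : E x = 1) : ∃ k : ℤ, x = k := by
  unfold E at h
  rw [Complex.exp_eq_one_iff] at h
  obtain ⟨k, hk⟩ := h
  refine ⟨k, ?_⟩
  have h2 : ((2 * Real.pi * x : ℝ) : ℂ) = ((k : ℝ) * (2 * Real.pi) : ℝ) := by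
    have h3 := mul_right_cancel₀ Complex.I_ne_zero (show ((2 * Real.pi * x : ℝ) : ℂ) * Complex.I =
      (((k : ℝ) * (2 * Real.pi) : ℝ) : ℂ) * Complex.I by rw [hk]; push_cast; ring)
    exact h3
  have h3 : 2 * Real.pi * x = (k : ℝ) * (2 * Real.pi) := by exact_mod_cast h2
  have hpi := Real.pi_pos
  have h4 : (2 * Real.pi) * (x - k) = 0 := by linarith
  rcases mul_eq_zero.1 h4 with h5 | h5
  · linarith
  · linarith

lemma E_sum {ι : Type*} (s : Finset ι) (f : ι → ℝ) : E (∑ i ∈ s, f i) = ∏ i ∈ s, E (f i) := by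
  classical
  induction s using Finset.induction_on with
  | empty => simp [E_zero]
  | insert a s ha ih => rw [sum_insert ha, prod_insert ha, E_add, ih]

/-- the characteristic function -/
noncomputable def F (A : Finset ℕ) (p : ℝ) (h : ℤ) : ℂ :=
  ∏ n ∈ A, ((p : ℂ) * E ((h : ℝ) / n) + ((1 - p : ℝ) : ℂ))

lemma F_zero (A : Finset ℕ) (p : ℝ) : F A p 0 = 1 := by
  unfold F
  apply prod_eq_one
  intro n _
  simp [E_zero]

lemma F_periodic (A : Finset ℕ) (hA : ∀ n ∈ A, 0 < n) (P : ℕ) (hdiv : ∀ n ∈ A, n ∣ P) (p : ℝ)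
    (h : ℤ) : F A p (h - P) = F A p h := by
  unfold F
  apply prod_congr rfl
  intro n hn
  obtain ⟨m, hm⟩ := hdiv n hn
  have hn0 : (n : ℝ) ≠ 0 := by exact_mod_cast (hA n hn).ne'
  have e : (((h - P : ℤ)) : ℝ) / n + ((m : ℤ) : ℝ) = (h : ℝ) / n := by
    rw [hm]; push_cast; field_simp; ring
  have e2 : E (((h - P : ℤ) : ℝ) / n) = E ((h : ℝ) / n) := by
    rw [← e, E_add, E_int, mul_one]
  rw [e2]

lemma F_expand (A : Finset ℕ) (p : ℝ) (h : ℤ) :
    F A p h = ∑ S ∈ A.powerset, (((p ^ S.card * (1 - p) ^ (A \ S).card : ℝ)) : ℂ) *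
      E (h * ∑ n ∈ S, (1 : ℝ) / n) := by
  unfold F
  rw [prod_add]
  apply sum_congr rfl
  intro S _
  rw [prod_mul_distrib, prod_const, prod_const, mul_sum, E_sum]
  have : ∏ n ∈ S, E ((h : ℝ) / n) = ∏ n ∈ S, E (h * (1 / (n : ℝ))) := by
    apply prod_congr rfl
    intro n _
    rw [mul_one_div]
  rw [this]
  push_cast
  ring

open Classical in
lemma sum_E (P : ℕ) (s : ℝ) (hs : ∃ k : ℤ, (P : ℝ) * s = k) :
    ∑ h ∈ range P, E (((h : ℤ) : ℝ) * s) = if (∃ k : ℤ, s = k) then (P : ℂ) else 0 := by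
  have e : ∀ h : ℕ, E (((h : ℤ) : ℝ) * s) = E s ^ h := by
    intro h
    rw [← E_nat_mul]; norm_num
  simp only [e]
  split_ifs with hk
  · obtain ⟨k, rfl⟩ := hk
    simp [E_int]
  · have hne : E s ≠ 1 := fun h => hk (E_eq_one h)
    have hP : E s ^ P = 1 := by
      rw [← E_nat_mul]
      obtain ⟨k, hk'⟩ := hs
      rw [hk', E_int]
    rw [geom_sum_eq hne, hP, sub_self, zero_div]

open Classical in
lemma sum_F (A : Finset ℕ) (hA : ∀ n ∈ A, 0 < n) (P : ℕ) (hdiv : ∀ n ∈ A, n ∣ P) (p : ℝ) :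
    ∑ h ∈ range P, F A p (h : ℤ) =
      ∑ S ∈ A.powerset, (((p ^ S.card * (1 - p) ^ (A \ S).card : ℝ)) : ℂ) *
        (if (∃ k : ℤ, ∑ n ∈ S, (1 : ℝ) / n = k) then (P : ℂ) else 0) := by
  simp only [F_expand]
  rw [sum_comm]
  apply sum_congr rfl
  intro S hS
  rw [← mul_sum]
  congr 1
  have hsub := mem_powerset.1 hS
  rw [sum_E]
  refine ⟨∑ n ∈ S, ((P / n : ℕ) : ℤ), ?_⟩
  rw [mul_sum, Int.cast_sum]
  apply sum_congr rfl
  intro n hn
  have hn0 : (n : ℝ) ≠ 0 := by exact_mod_cast (hA n (hsub hn)).ne'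
  obtain ⟨m, hm⟩ := hdiv n (hsub hn)
  rw [hm, Nat.mul_div_cancel_left _ (hA n (hsub hn))]
  push_cast
  field_simp

theorem exists_sum_one (A : Finset ℕ) (hA : ∀ n ∈ A, 0 < n) (P : ℕ) (hP : 0 < P)
    (hdiv : ∀ n ∈ A, n ∣ P) (p : ℝ) (hp0 : 0 ≤ p) (hp1 : p ≤ 1)
    (hT : ∑ n ∈ A, (1 : ℝ) / n < 2) (hbig : (P : ℝ) * (1 - p) ^ A.card < 3 / 4)
    (hF : ∀ h : ℤ, h ≠ 0 → 2 * |h| ≤ P → 0 ≤ (F A p h).re ∨ ‖F A p h‖ ≤ 1 / (4 * P)) :
    ∃ S ⊆ A, ∑ n ∈ S, (1 : ℝ) / n = 1 := by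
  classical
  have hPr : (0 : ℝ) < P := by exact_mod_cast hP
  -- lower bound for every term
  have hlow : ∀ h ∈ range P, h ≠ 0 → -(1 / (4 * (P : ℝ))) ≤ (F A p (h : ℤ)).re := by
    intro h hh h0
    rw [mem_range] at hh
    have hneg : 0 ≤ 1 / (4 * (P : ℝ)) := by positivity
    have key : ∀ h' : ℤ, h' ≠ 0 → 2 * |h'| ≤ P → -(1 / (4 * (P : ℝ))) ≤ (F A p h').re := by
      intro h' h1 h2
      rcases hF h' h1 h2 with h3 | h3
      · linarith
      · have h4 := Complex.abs_re_le_norm (F A p h')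
        have h5 := neg_abs_le (F A p h').re
        linarith
    by_cases h2 : 2 * h ≤ P
    · apply key
      · exact_mod_cast h0
      · rw [abs_of_nonneg (by positivity)]
        exact_mod_cast h2
    · rw [← F_periodic A hA P hdiv p h]
      apply key
      · omega
      · rw [abs_of_nonpos (by omega)]
        omega
  have hre : 3 / 4 ≤ (∑ h ∈ range P, F A p (h : ℤ)).re := by
    rw [Complex.re_sum]
    have h0 : 0 ∈ range P := mem_range.2 hP
    rw [← add_sum_erase _ _ h0]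
    have h1 : (F A p ((0 : ℕ) : ℤ)).re = 1 := by
      rw [Nat.cast_zero, F_zero]; simp
    have h2 : ∑ h ∈ (range P).erase 0, -(1 / (4 * (P : ℝ))) ≤
        ∑ h ∈ (range P).erase 0, (F A p (h : ℤ)).re := by
      apply sum_le_sum
      intro h hh
      rw [mem_erase] at hh
      exact hlow h hh.2 hh.1
    rw [sum_const, card_erase_of_mem h0, card_range, nsmul_eq_mul] at h2
    have h3 : ((P - 1 : ℕ) : ℝ) ≤ P := by exact_mod_cast Nat.sub_le P 1
    rw [mul_neg] at h2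
    have h4 : ((P - 1 : ℕ) : ℝ) * (1 / (4 * (P : ℝ))) ≤ 1 / 4 := by
      calc ((P - 1 : ℕ) : ℝ) * (1 / (4 * (P : ℝ))) ≤ P * (1 / (4 * (P : ℝ))) := by gcongr
        _ = 1 / 4 := by field_simp
    refine le_trans ?_ (add_le_add h1.ge h2)
    linarith
  by_contra hcon
  push Not at hcon
  have hno : ∀ S ∈ A.powerset, S ≠ ∅ → ¬ ∃ k : ℤ, ∑ n ∈ S, (1 : ℝ) / n = k := by
    rintro S hS hne ⟨k, hk⟩
    have hsub := mem_powerset.1 hS
    have hpos : 0 < ∑ n ∈ S, (1 : ℝ) / n := by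
      apply sum_pos
      · intro n hn
        have : (0 : ℝ) < n := by exact_mod_cast hA n (hsub hn)
        positivity
      · exact nonempty_iff_ne_empty.2 hne
    have hle : ∑ n ∈ S, (1 : ℝ) / n ≤ ∑ n ∈ A, (1 : ℝ) / n :=
      sum_le_sum_of_subset_of_nonneg hsub (fun _ _ _ => by positivity)
    have h1 : (0 : ℝ) < k := by rw [← hk]; exact hpos
    have h2 : (k : ℝ) < 2 := by rw [← hk]; linarith
    have h3 : 0 < k := by exact_mod_cast h1
    have h4 : k < 2 := by exact_mod_cast h2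
    have h5 : k = 1 := by omega
    exact hcon S hsub (by rw [hk, h5]; norm_num)
  rw [sum_F A hA P hdiv p] at hre
  have hempty : (∅ : Finset ℕ) ∈ A.powerset := empty_mem_powerset A
  rw [sum_eq_single_of_mem ∅ hempty] at hre
  · rw [if_pos ⟨0, by simp⟩] at hre
    simp only [card_empty, pow_zero, one_mul, sdiff_empty] at hre
    have : ((((1 - p) ^ A.card : ℝ) : ℂ) * (P : ℂ)).re = (1 - p) ^ A.card * P := by
      rw [← Complex.ofReal_natCast, ← Complex.ofReal_mul, Complex.ofReal_re]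
    rw [this] at hre
    linarith
  · intro S hS hne
    rw [if_neg (hno S hS hne), mul_zero]

/-! ### Bounds for `F` -/

/-- distance to the nearest integer -/
noncomputable def nu (x : ℝ) : ℝ := |x - round x|

lemma nu_nonneg (x : ℝ) : 0 ≤ nu x := abs_nonneg _

lemma factor_norm (p x : ℝ) (_hp0 : 0 ≤ p) (_hp1 : p ≤ 1) (hp : 1 / 8 ≤ p * (1 - p)) :
    ‖(p : ℂ) * E x + ((1 - p : ℝ) : ℂ)‖ ≤ Real.exp (-(nu x) ^ 2) := by
  set y := x - round x with hy
  have hE : E x = E y := by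
    have : x = y + ((round x : ℤ) : ℝ) := by rw [hy]; ring
    rw [this, E_add, E_int, mul_one]
  have hy2 : |y| ≤ 1 / 2 := abs_sub_round x
  have hnu : nu x = |y| := rfl
  set φ := 2 * Real.pi * y with hφ
  have hEy : E y = ⟨Real.cos φ, Real.sin φ⟩ := by
    unfold E
    apply Complex.ext
    · rw [Complex.exp_ofReal_mul_I_re]
    · rw [Complex.exp_ofReal_mul_I_im]
  have hn : ‖(p : ℂ) * E x + ((1 - p : ℝ) : ℂ)‖ ^ 2 = 1 - 2 * (p * (1 - p)) * (1 - Real.cos φ) := by
    rw [hE, hEy, ← Complex.normSq_eq_norm_sq, Complex.normSq_apply]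
    simp only [Complex.add_re, Complex.mul_re, Complex.ofReal_re, Complex.ofReal_im,
      Complex.add_im, Complex.mul_im]
    have := Real.sin_sq_add_cos_sq φ
    nlinarith
  have hcos : 8 * y ^ 2 ≤ 1 - Real.cos φ := by
    have h1 : Real.cos φ = 1 - 2 * Real.sin (Real.pi * y) ^ 2 := by
      have h2 := Real.cos_two_mul (Real.pi * y)
      have h3 := Real.sin_sq_add_cos_sq (Real.pi * y)
      rw [hφ, show 2 * Real.pi * y = 2 * (Real.pi * y) by ring, h2]
      nlinarith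
    have h2 : (2 * |y|) ^ 2 ≤ Real.sin (Real.pi * y) ^ 2 := by
      have h3 : 2 * |y| ≤ |Real.sin (Real.pi * y)| := by
        have h4 : |Real.sin (Real.pi * y)| = Real.sin (Real.pi * |y|) := by
          rcases abs_cases y with ⟨h5, h6⟩ | ⟨h5, h6⟩
          · rw [h5]
            apply abs_of_nonneg
            apply Real.sin_nonneg_of_nonneg_of_le_pi
            · positivity
            · have : y ≤ 1 / 2 := (le_abs_self y).trans hy2
              nlinarith [Real.pi_pos]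
          · rw [h5, show Real.pi * -y = -(Real.pi * y) by ring, Real.sin_neg]
            apply abs_of_nonpos
            have h7 : 0 ≤ Real.sin (Real.pi * (-y)) := by
              apply Real.sin_nonneg_of_nonneg_of_le_pi
              · have : 0 ≤ -y := by linarith
                positivity
              · have : -y ≤ 1 / 2 := (neg_le_abs y).trans hy2
                nlinarith [Real.pi_pos]
            rw [show Real.pi * -y = -(Real.pi * y) by ring, Real.sin_neg] at h7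
            linarith
        rw [h4]
        have h5 := Real.mul_le_sin (x := Real.pi * |y|) (by positivity) (by nlinarith [Real.pi_pos])
        have h6 : 2 / Real.pi * (Real.pi * |y|) = 2 * |y| := by
          have := Real.pi_pos.ne'
          field_simp
        linarith
      calc (2 * |y|) ^ 2 ≤ |Real.sin (Real.pi * y)| ^ 2 := by gcongr
        _ = Real.sin (Real.pi * y) ^ 2 := sq_abs _
    rw [h1]
    have h3 : (2 * |y|) ^ 2 = 4 * y ^ 2 := by rw [mul_pow, sq_abs]; ring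
    linarith
  have hle : ‖(p : ℂ) * E x + ((1 - p : ℝ) : ℂ)‖ ^ 2 ≤ Real.exp (-(2 * (nu x) ^ 2)) := by
    rw [hn, hnu, sq_abs]
    have h1 := Real.add_one_le_exp (-(2 * y ^ 2))
    have h2 : 2 * y ^ 2 ≤ 2 * (p * (1 - p)) * (1 - Real.cos φ) := by
      have h3 : 2 * (1 / 8) * (8 * y ^ 2) ≤ 2 * (p * (1 - p)) * (1 - Real.cos φ) := by
        apply mul_le_mul _ hcos (by positivity) (by linarith)
        linarith
      linarith
    linarith
  have he : Real.exp (-(2 * (nu x) ^ 2)) = Real.exp (-(nu x) ^ 2) ^ 2 := by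
    rw [← Real.exp_nat_mul]; congr 1; push_cast; ring
  rw [he] at hle
  exact le_of_sq_le_sq hle (Real.exp_pos _).le |> fun h => h

theorem norm_F_le (A : Finset ℕ) (p : ℝ) (hp0 : 0 ≤ p) (hp1 : p ≤ 1)
    (hp : 1 / 8 ≤ p * (1 - p)) (h : ℤ) :
    ‖F A p h‖ ≤ Real.exp (-∑ n ∈ A, nu ((h : ℝ) / n) ^ 2) := by
  unfold F
  rw [norm_prod, ← sum_neg_distrib, Real.exp_sum]
  apply prod_le_prod
  · intro _ _; exact norm_nonneg _
  · intro n _
    exact factor_norm p _ hp0 hp1 hp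

lemma abs_sin_sub_le {u : ℝ} (hu : |u| ≤ 1) : |Real.sin u - u| ≤ |u| ^ 3 / 4 := by
  have h := Real.sin_bound hu
  have h0 := abs_nonneg u
  have h1 : |Real.sin u - u| ≤ |Real.sin u - (u - u ^ 3 / 6)| + |u ^ 3 / 6| := by
    have : Real.sin u - u = (Real.sin u - (u - u ^ 3 / 6)) + -(u ^ 3 / 6) := by ring
    rw [this]
    refine (abs_add_le _ _).trans ?_
    rw [abs_neg]
  have h2 : |u ^ 3 / 6| = |u| ^ 3 / 6 := by rw [abs_div, abs_pow]; norm_num
  have h3 : |u| ^ 5 ≤ |u| ^ 3 := pow_le_pow_of_le_one h0 hu (by norm_num)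
  have h4 : 0 ≤ |u| ^ 3 := by positivity
  rw [h2] at h1
  linarith

theorem re_F_nonneg (A : Finset ℕ) (p : ℝ) (hp0 : 0 ≤ p) (hp1 : p ≤ 1) (h : ℤ)
    (hpT : p * ∑ n ∈ A, (1 : ℝ) / n = 1)
    (hsmall : ∀ n ∈ A, |2 * Real.pi * (h / n)| ≤ 1)
    (hcube : ∑ n ∈ A, |2 * Real.pi * (h / n)| ^ 3 ≤ 1) : 0 ≤ (F A p h).re := by
  set φ : ℕ → ℝ := fun n => 2 * Real.pi * (h / n) with hφ
  set r : ℕ → ℝ := fun n => (1 - p) * Real.cos (p * φ n) + p * Real.cos ((1 - p) * φ n) with hr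
  set j : ℕ → ℝ := fun n => p * Real.sin ((1 - p) * φ n) - (1 - p) * Real.sin (p * φ n) with hj
  have hq0 : 0 ≤ 1 - p := by linarith
  have hz : ∀ n ∈ A, (p : ℂ) * E ((h : ℝ) / n) + ((1 - p : ℝ) : ℂ) =
      E (p * ((h : ℝ) / n)) * ((r n : ℂ) + (j n : ℂ) * Complex.I) := by
    intro n _
    have e1 : (r n : ℂ) + (j n : ℂ) * Complex.I =
        ((1 - p : ℝ) : ℂ) * Complex.exp ((-(p * φ n) : ℝ) * Complex.I) +
          (p : ℂ) * Complex.exp ((((1 - p) * φ n) : ℝ) * Complex.I) := by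
      rw [Complex.exp_mul_I, Complex.exp_mul_I, ← Complex.ofReal_cos, ← Complex.ofReal_sin,
        ← Complex.ofReal_cos, ← Complex.ofReal_sin, Real.cos_neg, Real.sin_neg, hr, hj]
      push_cast
      ring
    rw [e1]
    unfold E
    have e0 : ∀ a b c : ℂ, Complex.exp a * (c * Complex.exp b) = c * Complex.exp (a + b) := by
      intro a b c
      rw [Complex.exp_add]; ring
    rw [mul_add, e0, e0]
    have e2 : ((2 * Real.pi * (p * ((h : ℝ) / n)) : ℝ) : ℂ) * Complex.I +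
        ((-(p * φ n) : ℝ) : ℂ) * Complex.I = 0 := by
      rw [hφ]; push_cast; ring
    have e3 : ((2 * Real.pi * (p * ((h : ℝ) / n)) : ℝ) : ℂ) * Complex.I +
        ((((1 - p) * φ n) : ℝ) : ℂ) * Complex.I = ((2 * Real.pi * ((h : ℝ) / n) : ℝ) : ℂ) * Complex.I := by
      rw [hφ]; push_cast; ring
    rw [e2, e3, Complex.exp_zero]
    ring
  have hrn : ∀ n ∈ A, 1 / 2 ≤ r n := by
    intro n hn
    have h1 := hsmall n hn
    have h2 : |φ n| ≤ 1 := h1
    have h3 := Real.one_sub_sq_div_two_le_cos (x := p * φ n)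
    have h4 := Real.one_sub_sq_div_two_le_cos (x := (1 - p) * φ n)
    have h5 : (φ n) ^ 2 ≤ 1 := by rw [← sq_abs]; exact pow_le_one₀ (abs_nonneg _) h2
    have h6 : (p * φ n) ^ 2 ≤ 1 := by
      rw [mul_pow]
      have : p ^ 2 ≤ 1 := pow_le_one₀ hp0 hp1
      nlinarith [sq_nonneg (φ n)]
    have h7 : ((1 - p) * φ n) ^ 2 ≤ 1 := by
      rw [mul_pow]
      have : (1 - p) ^ 2 ≤ 1 := pow_le_one₀ hq0 (by linarith)
      nlinarith [sq_nonneg (φ n)]
    have h8 : 1 / 2 ≤ Real.cos (p * φ n) := by linarith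
    have h9 : 1 / 2 ≤ Real.cos ((1 - p) * φ n) := by linarith
    show 1 / 2 ≤ (1 - p) * Real.cos (p * φ n) + p * Real.cos ((1 - p) * φ n)
    nlinarith
  have hjn : ∀ n ∈ A, |j n| ≤ |φ n| ^ 3 / 4 := by
    intro n hn
    have h2 : |φ n| ≤ 1 := hsmall n hn
    have ha := abs_nonneg (φ n)
    have h3 : |(1 - p) * φ n| ≤ |φ n| := by
      rw [abs_mul, abs_of_nonneg hq0]; nlinarith
    have h4 : |p * φ n| ≤ |φ n| := by
      rw [abs_mul, abs_of_nonneg hp0]; nlinarith
    have h5 := abs_sin_sub_le (h3.trans h2)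
    have h6 := abs_sin_sub_le (h4.trans h2)
    have h7 : j n = p * (Real.sin ((1 - p) * φ n) - (1 - p) * φ n) -
        (1 - p) * (Real.sin (p * φ n) - p * φ n) := by
      show p * Real.sin ((1 - p) * φ n) - (1 - p) * Real.sin (p * φ n) = _
      ring
    rw [h7]
    have h8 : |p * (Real.sin ((1 - p) * φ n) - (1 - p) * φ n)| ≤ p * (|φ n| ^ 3 / 4) := by
      rw [abs_mul, abs_of_nonneg hp0]
      apply mul_le_mul_of_nonneg_left _ hp0
      refine h5.trans ?_
      have := pow_le_pow_left₀ (abs_nonneg _) h3 3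
      linarith
    have h9 : |(1 - p) * (Real.sin (p * φ n) - p * φ n)| ≤ (1 - p) * (|φ n| ^ 3 / 4) := by
      rw [abs_mul, abs_of_nonneg hq0]
      apply mul_le_mul_of_nonneg_left _ hq0
      refine h6.trans ?_
      have := pow_le_pow_left₀ (abs_nonneg _) h4 3
      linarith
    refine (abs_sub _ _).trans ?_
    linarith
  -- assemble
  have hF : F A p h = ((∏ n ∈ A, r n : ℝ) : ℂ) * ∏ n ∈ A, (1 + ((j n / r n : ℝ) : ℂ) * Complex.I) := by
    unfold F
    rw [prod_congr rfl hz, prod_mul_distrib, ← E_sum]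
    have e1 : ∑ n ∈ A, p * ((h : ℝ) / n) = ((h : ℤ) : ℝ) := by
      have : ∑ n ∈ A, p * ((h : ℝ) / n) = h * (p * ∑ n ∈ A, (1 : ℝ) / n) := by
        rw [mul_sum, mul_sum]
        apply sum_congr rfl
        intro n _
        ring
      rw [this, hpT, mul_one]
    rw [e1, E_int, one_mul, Complex.ofReal_prod, ← prod_mul_distrib]
    apply prod_congr rfl
    intro n hn
    have hr0 : (r n : ℂ) ≠ 0 := by
      have := hrn n hn
      have h0 : r n ≠ 0 := by linarith
      exact_mod_cast h0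
    push_cast
    field_simp
  set w := ∏ n ∈ A, (1 + ((j n / r n : ℝ) : ℂ) * Complex.I) with hw
  have hw1 : ‖w - 1‖ ≤ Real.exp (1 / 2) - 1 := by
    refine (A.norm_prod_one_add_sub_one_le _).trans ?_
    apply sub_le_sub_right
    apply Real.exp_le_exp.2
    have h1 : ∀ n ∈ A, ‖((j n / r n : ℝ) : ℂ) * Complex.I‖ ≤ |φ n| ^ 3 / 2 := by
      intro n hn
      rw [norm_mul, Complex.norm_I, mul_one, Complex.norm_real, Real.norm_eq_abs, abs_div]
      have h2 := hrn n hn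
      have h3 := hjn n hn
      have h4 : 0 < |r n| := by
        apply abs_pos.2; linarith
      rw [div_le_iff₀ h4, abs_of_nonneg (by linarith : 0 ≤ r n)]
      have h5 : 0 ≤ |φ n| ^ 3 := by positivity
      nlinarith
    refine (sum_le_sum h1).trans ?_
    rw [← sum_div]
    have : ∑ n ∈ A, |φ n| ^ 3 ≤ 1 := hcube
    linarith
  have hexp : Real.exp (1 / 2) < 2 := by
    have h1 : Real.exp (1 / 2) ^ 2 = Real.exp 1 := by
      rw [← Real.exp_nat_mul]; norm_num
    have h2 := Real.exp_one_lt_d9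
    by_contra hcon
    push Not at hcon
    nlinarith
  have hwre : 0 ≤ w.re := by
    have h1 := Complex.abs_re_le_norm (w - 1)
    have h2 := neg_abs_le (w - 1).re
    have h3 : (w - 1).re = w.re - 1 := by simp
    rw [h3] at h1 h2
    linarith
  rw [hF, Complex.re_ofReal_mul]
  apply mul_nonneg _ hwre
  apply prod_nonneg
  intro n hn
  have := hrn n hn
  linarith

end Pool.Agent.W11.Hahn
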