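import Mathlib

set_option autoImplicit false

/-! The combinatorial part: if nearly all elements of a set of products of primes divide elements
of a short interval, then all the primes which occur often divide the same element. -/

namespace Pool.Agent.W11.Hahn

open Finset

/-- reciprocal sum -/
noncomputable def rs (X : Finset ℕ) : ℝ := ∑ t ∈ X, (1 : ℝ) / t

/-- the elements dividing `x` -/
def dv (X : Finset ℕ) (x : ℤ) : Finset ℕ := X.filter (fun t => (t : ℤ) ∣ x)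

/-- restriction to `q` if `q` occurs -/
def res (q : ℕ) (X : Finset ℕ) : Finset ℕ := if q ∈ X then {q} else X

/-- restriction to the multiples of `q` if there are some -/
def resM (q M0 : ℕ) : Finset ℕ :=
  if q ∣ M0 then M0.divisors.filter (fun m => q ∣ m) else M0.divisors

lemma rs_nonneg (X : Finset ℕ) : 0 ≤ rs X := sum_nonneg fun _ _ => by positivity

lemma rs_mono {X Y : Finset ℕ} (h : X ⊆ Y) : rs X ≤ rs Y :=
  sum_le_sum_of_subset_of_nonneg h (fun _ _ _ => by positivity)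

lemma dv_subset (X : Finset ℕ) (x : ℤ) : dv X x ⊆ X := filter_subset _ _

variable {α β : Type} [Fintype α] [DecidableEq α] [Fintype β] [DecidableEq β]

/-- the products -/
def NN (M0 : ℕ) (Ta : α → Finset ℕ) (Tb : β → Finset ℕ) : Finset ℕ :=
  (M0.divisors ×ˢ Fintype.piFinset Ta ×ˢ Fintype.piFinset Tb).image
    (fun y => y.1 * (∏ i, y.2.1 i) * ∏ j, y.2.2 j)

/-- the bound for the elements divisible by `q` -/
noncomputable def bd (M0 : ℕ) (Ta : α → Finset ℕ) (Tb : β → Finset ℕ) (q : ℕ) : ℝ :=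
  rs (resM q M0) * (∏ i, rs (res q (Ta i))) * ∏ j, rs (res q (Tb j))

lemma prod_recip {ι : Type} [Fintype ι] (f : ι → ℕ) :
    (1 : ℝ) / ((∏ i, f i : ℕ) : ℝ) = ∏ i, (1 : ℝ) / (f i) := by
  rw [Nat.cast_prod, prod_div_distrib, prod_const_one]

lemma sum_pi {ι : Type} [Fintype ι] [DecidableEq ι] (X : ι → Finset ℕ) :
    ∑ a ∈ Fintype.piFinset X, ∏ i, (1 : ℝ) / (a i) = ∏ i, rs (X i) := by
  unfold rs
  rw [Finset.prod_univ_sum]

/-- hypotheses on the blocks of primes -/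
structure Blocks (M0 : ℕ) (Ta : α → Finset ℕ) (Tb : β → Finset ℕ) : Prop where
  M0pos : 0 < M0
  pa : ∀ i, ∀ t ∈ Ta i, t.Prime ∧ ¬ t ∣ M0
  pb : ∀ j, ∀ t ∈ Tb j, t.Prime ∧ ¬ t ∣ M0
  daa : ∀ i i', i ≠ i' → ∀ t ∈ Ta i, t ∉ Ta i'
  dbb : ∀ j j', j ≠ j' → ∀ t ∈ Tb j, t ∉ Tb j'
  dab : ∀ i j, ∀ t ∈ Ta i, t ∉ Tb j

lemma mem_res_of {M0 : ℕ} {Ta : α → Finset ℕ} {Tb : β → Finset ℕ} (hB : Blocks M0 Ta Tb)
    {q : ℕ} (hq : q.Prime) {m : ℕ} {a : α → ℕ} {b : β → ℕ} (hm : m ∈ M0.divisors)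
    (ha : a ∈ Fintype.piFinset Ta) (hb : b ∈ Fintype.piFinset Tb)
    (hdvd : q ∣ m * (∏ i, a i) * ∏ j, b j) :
    m ∈ resM q M0 ∧ (∀ i, a i ∈ res q (Ta i)) ∧ ∀ j, b j ∈ res q (Tb j) := by
  rw [Fintype.mem_piFinset] at ha hb
  have hmd : m ∣ M0 := Nat.dvd_of_mem_divisors hm
  have hcases : q ∣ m ∨ (∃ i, q = a i) ∨ ∃ j, q = b j := by
    rcases (hq.dvd_mul).1 hdvd with h | h
    · rcases (hq.dvd_mul).1 h with h1 | h1
      · exact Or.inl h1
      · rw [hq.prime.dvd_finsetProd_iff] at h1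
        obtain ⟨i, -, hi⟩ := h1
        exact Or.inr (Or.inl ⟨i, (Nat.prime_dvd_prime_iff_eq hq (hB.pa i _ (ha i)).1).1 hi⟩)
    · rw [hq.prime.dvd_finsetProd_iff] at h
      obtain ⟨j, -, hj⟩ := h
      exact Or.inr (Or.inr ⟨j, (Nat.prime_dvd_prime_iff_eq hq (hB.pb j _ (hb j)).1).1 hj⟩)
  refine ⟨?_, fun i => ?_, fun j => ?_⟩
  · unfold resM
    split_ifs with h
    · rw [mem_filter]
      refine ⟨hm, ?_⟩
      rcases hcases with h1 | ⟨i, hi⟩ | ⟨j, hj⟩
      · exact h1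
      · exact absurd (hi ▸ h) (hB.pa i _ (ha i)).2
      · exact absurd (hj ▸ h) (hB.pb j _ (hb j)).2
    · exact hm
  · unfold res
    split_ifs with h
    · rw [mem_singleton]
      rcases hcases with h1 | ⟨i', hi⟩ | ⟨j, hj⟩
      · exact absurd (h1.trans hmd) (hB.pa i _ h).2
      · by_cases hii : i = i'
        · rw [hii, ← hi]
        · exact absurd (hi ▸ ha i') (hB.daa i i' hii q h)
      · exact absurd (hj ▸ hb j) (hB.dab i j q h)
    · exact ha i
  · unfold res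
    split_ifs with h
    · rw [mem_singleton]
      rcases hcases with h1 | ⟨i, hi⟩ | ⟨j', hj⟩
      · exact absurd (h1.trans hmd) (hB.pb j _ h).2
      · exact absurd h (hB.dab i j q (hi ▸ ha i))
      · by_cases hjj : j = j'
        · rw [hjj, ← hj]
        · exact absurd (hj ▸ hb j') (hB.dbb j j' hjj q h)
    · exact hb j

/-- the interval -/
noncomputable def II (h η : ℤ) : Finset ℤ := Finset.Icc (h - η) (h + η)

lemma unique_in_II {h η : ℤ} {m : ℤ} (hm : 2 * η < m) {x y : ℤ} (hx : x ∈ II h η)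
    (hy : y ∈ II h η) (hmx : m ∣ x) (hmy : m ∣ y) : x = y := by
  unfold II at hx hy
  rw [mem_Icc] at hx hy
  have hd : m ∣ x - y := dvd_sub hmx hmy
  by_contra hne
  have hne' : x - y ≠ 0 := sub_ne_zero.2 hne
  have h1 : m ≤ |x - y| := by
    apply Int.le_of_dvd (abs_pos.2 hne')
    rwa [dvd_abs]
  have h2 : |x - y| ≤ 2 * η := by
    rw [abs_le]; constructor <;> linarith [hx.1, hx.2, hy.1, hy.2]
  linarith

/-- bad indices of `x` -/
noncomputable def bad (Tb : β → Finset ℕ) (x : ℤ) : Finset β :=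
  univ.filter (fun j => rs (dv (Tb j) x) < 3 / 4 * rs (Tb j))

lemma bpart {Tb : β → Finset ℕ} (hdbb : ∀ j j', j ≠ j' → ∀ t ∈ Tb j, t ∉ Tb j') (q : ℕ) (x : ℤ)
    (K : ℕ) (hbad : K < (bad Tb x).card) :
    ∏ j, rs (dv (res q (Tb j)) x) ≤ (3 / 4) ^ K * ∏ j, rs (res q (Tb j)) := by
  classical
  -- remove the index containing `q`
  set B := (bad Tb x).filter (fun j => q ∉ Tb j) with hBdef
  have hcard : K ≤ B.card := by
    have h1 : ((bad Tb x).filter (fun j => q ∈ Tb j)).card ≤ 1 := by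
      rw [card_le_one]
      intro j hj j' hj'
      rw [mem_filter] at hj hj'
      by_contra hne
      exact hdbb j j' hne q hj.2 hj'.2
    have h2 : ((bad Tb x).filter (fun j => q ∈ Tb j)).card + B.card = (bad Tb x).card :=
      card_filter_add_card_filter_not (s := bad Tb x) (fun j => q ∈ Tb j)
    omega
  have h3 : ∏ j, rs (dv (res q (Tb j)) x) ≤
      ∏ j, ((if j ∈ B then (3 / 4 : ℝ) else 1) * rs (res q (Tb j))) := by
    apply prod_le_prod
    · intro _ _; exact rs_nonneg _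
    · intro j _
      split_ifs with hj
      · rw [hBdef, mem_filter, bad, mem_filter] at hj
        have e : res q (Tb j) = Tb j := by unfold res; rw [if_neg hj.2]
        rw [e]
        exact hj.1.2.le
      · rw [one_mul]
        exact rs_mono (dv_subset _ _)
  refine h3.trans ?_
  rw [prod_mul_distrib]
  apply mul_le_mul_of_nonneg_right _ (prod_nonneg fun _ _ => rs_nonneg _)
  rw [prod_ite_mem, univ_inter, prod_const]
  exact pow_le_pow_of_le_one (by norm_num) (by norm_num) hcard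

lemma apart {Ta : α → Finset ℕ} {h η : ℤ} (hpa : ∀ i, ∀ t ∈ Ta i, t.Prime)
    (hdaa : ∀ i i', i ≠ i' → ∀ t ∈ Ta i, t ∉ Ta i')
    (ha : ∀ a ∈ Fintype.piFinset Ta, 2 * η < ∏ i, ((a i : ℕ) : ℤ)) (q : ℕ) :
    ∑ x ∈ II h η, ∏ i, rs (dv (res q (Ta i)) x) ≤ ∏ i, rs (res q (Ta i)) := by
  classical
  have e1 : ∀ x ∈ II h η, ∏ i, rs (dv (res q (Ta i)) x) =
      ∑ a ∈ Fintype.piFinset (fun i => res q (Ta i)),
        if (∀ i, ((a i : ℕ) : ℤ) ∣ x) then ∏ i, (1 : ℝ) / (a i) else 0 := by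
    intro x _
    rw [← sum_pi, ← sum_filter]
    apply sum_congr _ (fun _ _ => rfl)
    ext a
    simp only [Fintype.mem_piFinset, mem_filter, dv]
    constructor
    · intro h1; exact ⟨fun i => (h1 i).1, fun i => (h1 i).2⟩
    · rintro ⟨h1, h2⟩ i; exact ⟨h1 i, h2 i⟩
  rw [sum_congr rfl e1, sum_comm, ← sum_pi]
  apply sum_le_sum
  intro a haa
  rw [← sum_filter, sum_const, nsmul_eq_mul]
  have hamem : a ∈ Fintype.piFinset Ta := by
    rw [Fintype.mem_piFinset] at haa ⊢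
    intro i
    have := haa i
    unfold res at this
    split_ifs at this with hq
    · rw [mem_singleton] at this; rw [this]; exact hq
    · exact this
  have hcard : ((II h η).filter (fun x => ∀ i, ((a i : ℕ) : ℤ) ∣ x)).card ≤ 1 := by
    rw [card_le_one]
    intro x hx y hy
    rw [mem_filter] at hx hy
    have hdiv : ∀ z : ℤ, (∀ i, ((a i : ℕ) : ℤ) ∣ z) → (∏ i, ((a i : ℕ) : ℤ)) ∣ z := by
      intro z hz
      apply Finset.prod_dvd_of_coprime
      · intro i _ i' _ hii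
        have h1 := (Fintype.mem_piFinset.1 hamem) i
        have h2 := (Fintype.mem_piFinset.1 hamem) i'
        have h3 : (a i).Coprime (a i') := by
          rw [Nat.coprime_primes (hpa i _ h1) (hpa i' _ h2)]
          intro heq
          exact hdaa i i' hii _ h1 (heq ▸ h2)
        exact Nat.isCoprime_iff_coprime.2 h3
      · intro i _; exact hz i
    exact unique_in_II (ha a hamem) hx.1 hy.1 (hdiv x hx.2) (hdiv y hy.2)
  have hnn : 0 ≤ ∏ i, (1 : ℝ) / (a i) := prod_nonneg fun _ _ => by positivity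
  calc ((((II h η).filter (fun x => ∀ i, ((a i : ℕ) : ℤ) ∣ x)).card : ℕ) : ℝ) * ∏ i, (1 : ℝ) / (a i)
      ≤ 1 * ∏ i, (1 : ℝ) / (a i) := by
        apply mul_le_mul_of_nonneg_right _ hnn
        exact_mod_cast hcard
    _ = ∏ i, (1 : ℝ) / (a i) := one_mul _

lemma triple_sum {X Y Z : Type} (f : X → ℝ) (g : Y → ℝ) (k : Z → ℝ) (A : Finset X)
    (B : Finset Y) (C : Finset Z) :
    ∑ m ∈ A, ∑ y ∈ B ×ˢ C, f m * g y.1 * k y.2 = (∑ m ∈ A, f m) * (∑ a ∈ B, g a) * ∑ b ∈ C, k b := by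
  have e : ∑ y ∈ B ×ˢ C, g y.1 * k y.2 = (∑ a ∈ B, g a) * ∑ b ∈ C, k b := by
    rw [sum_mul_sum, sum_product]
  rw [mul_assoc, ← e, sum_mul]
  apply sum_congr rfl
  intro m _
  rw [mul_sum]
  apply sum_congr rfl
  intro y _
  ring

lemma sum_Dq_le {M0 : ℕ} {Ta : α → Finset ℕ} {Tb : β → Finset ℕ} (hB : Blocks M0 Ta Tb)
    {h η : ℤ} (ha : ∀ a ∈ Fintype.piFinset Ta, 2 * η < ∏ i, ((a i : ℕ) : ℤ))
    (D : Finset ℕ) (hD : D ⊆ NN M0 Ta Tb) (hDI : ∀ n ∈ D, ∃ x ∈ II h η, ((n : ℕ) : ℤ) ∣ x)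
    (q : ℕ) (hq : q.Prime) (K : ℕ)
    (hbad : ∀ x ∈ II h η, ((q : ℕ) : ℤ) ∣ x → K < (bad Tb x).card) :
    ∑ n ∈ D.filter (fun n => q ∣ n), (1 : ℝ) / n ≤ (3 / 4) ^ K * bd M0 Ta Tb q := by
  classical
  -- choose coordinates
  have hch : ∀ n ∈ D.filter (fun n => q ∣ n), ∃ y : ℤ × ℕ × (α → ℕ) × (β → ℕ),
      (y.1 ∈ (II h η).filter (fun x => ((q : ℕ) : ℤ) ∣ x)) ∧ y.2.1 ∈ resM q M0 ∧
      y.2.2.1 ∈ Fintype.piFinset (fun i => dv (res q (Ta i)) y.1) ∧
      y.2.2.2 ∈ Fintype.piFinset (fun j => dv (res q (Tb j)) y.1) ∧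
      n = y.2.1 * (∏ i, y.2.2.1 i) * ∏ j, y.2.2.2 j := by
    intro n hn
    rw [mem_filter] at hn
    obtain ⟨x, hx, hnx⟩ := hDI n hn.1
    have hnn := hD hn.1
    unfold NN at hnn
    rw [mem_image] at hnn
    obtain ⟨⟨m, a, b⟩, hy, hval⟩ := hnn
    simp only [mem_product] at hy
    simp only at hval
    obtain ⟨hm, ha', hb'⟩ := hy
    have hqn : q ∣ m * (∏ i, a i) * ∏ j, b j := by rw [hval]; exact hn.2
    obtain ⟨r1, r2, r3⟩ := mem_res_of hB hq hm ha' hb' hqn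
    have hqx : ((q : ℕ) : ℤ) ∣ x := (Int.natCast_dvd_natCast.2 hn.2).trans hnx
    refine ⟨⟨x, m, a, b⟩, ?_, r1, ?_, ?_, hval.symm⟩
    · rw [mem_filter]; exact ⟨hx, hqx⟩
    · rw [Fintype.mem_piFinset]
      intro i
      unfold dv
      rw [mem_filter]
      refine ⟨r2 i, ?_⟩
      have : a i ∣ n := by
        rw [← hval]
        exact ((dvd_prod_of_mem a (mem_univ i)).trans (dvd_mul_left _ _)).trans (dvd_mul_right _ _)
      exact (Int.natCast_dvd_natCast.2 this).trans hnx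
    · rw [Fintype.mem_piFinset]
      intro j
      unfold dv
      rw [mem_filter]
      refine ⟨r3 j, ?_⟩
      have : b j ∣ n := by
        rw [← hval]
        exact (dvd_prod_of_mem b (mem_univ j)).trans (dvd_mul_left _ _)
      exact (Int.natCast_dvd_natCast.2 this).trans hnx
  choose! φ hφ1 hφ2 hφ3 hφ4 hφ5 using hch
  set Dq := D.filter (fun n => q ∣ n) with hDq
  set Iq := (II h η).filter (fun x => ((q : ℕ) : ℤ) ∣ x) with hIq
  set wt : ℤ × ℕ × (α → ℕ) × (β → ℕ) → ℝ := fun y =>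
    (1 / (y.2.1 : ℝ)) * (∏ i, (1 : ℝ) / (y.2.2.1 i)) * ∏ j, (1 : ℝ) / (y.2.2.2 j) with hwt
  have h1 : ∑ n ∈ Dq, (1 : ℝ) / n = ∑ n ∈ Dq, wt (φ n) := by
    apply sum_congr rfl
    intro n hn
    have h5 := hφ5 n hn
    rw [hwt]
    simp only
    rw [← prod_recip, ← prod_recip]
    conv_lhs => rw [h5]
    push_cast
    rw [one_div_mul_one_div, one_div_mul_one_div]
  have hinj : Set.InjOn φ (Dq : Set ℕ) := by
    intro n hn n' hn' heq
    rw [hφ5 n hn, hφ5 n' hn', heq]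
  -- the big set as a sigma type
  set big : Finset (ℤ × ℕ × (α → ℕ) × (β → ℕ)) := Iq.biUnion (fun x =>
    ({x} : Finset ℤ) ×ˢ (resM q M0) ×ˢ (Fintype.piFinset (fun i => dv (res q (Ta i)) x)) ×ˢ
      (Fintype.piFinset (fun j => dv (res q (Tb j)) x))) with hbig
  have h2 : ∑ n ∈ Dq, wt (φ n) ≤ ∑ y ∈ big, wt y := by
    rw [← sum_image hinj]
    apply sum_le_sum_of_subset_of_nonneg
    · intro y hy
      rw [mem_image] at hy
      obtain ⟨n, hn, rfl⟩ := hy
      rw [hbig, mem_biUnion]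
      refine ⟨(φ n).1, hφ1 n hn, ?_⟩
      simp only [mem_product, mem_singleton, true_and]
      exact ⟨hφ2 n hn, hφ3 n hn, hφ4 n hn⟩
    · intro y _ _
      rw [hwt]
      simp only
      have e1 : 0 ≤ ∏ i, (1 : ℝ) / (y.2.2.1 i) := prod_nonneg fun _ _ => by positivity
      have e2 : 0 ≤ ∏ j, (1 : ℝ) / (y.2.2.2 j) := prod_nonneg fun _ _ => by positivity
      positivity
  have h3 : ∑ y ∈ big, wt y ≤ ∑ x ∈ Iq, rs (resM q M0) * (∏ i, rs (dv (res q (Ta i)) x)) *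
      ∏ j, rs (dv (res q (Tb j)) x) := by
    rw [hbig, sum_biUnion]
    · apply le_of_eq
      apply sum_congr rfl
      intro x _
      rw [sum_product, sum_singleton, sum_product]
      rw [← sum_pi, ← sum_pi]
      exact triple_sum (fun m : ℕ => (1 : ℝ) / (m : ℝ))
        (fun a : α → ℕ => ∏ i, (1 : ℝ) / (a i)) (fun b : β → ℕ => ∏ j, (1 : ℝ) / (b j)) _ _ _
    · intro x _ x' _ hxx
      rw [Function.onFun, disjoint_left]
      rintro y hy hy'
      simp only [mem_product, mem_singleton] at hy hy'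
      exact hxx (hy.1.symm.trans hy'.1)
  have h4 : ∑ x ∈ Iq, rs (resM q M0) * (∏ i, rs (dv (res q (Ta i)) x)) *
      ∏ j, rs (dv (res q (Tb j)) x) ≤
      ∑ x ∈ Iq, (∏ i, rs (dv (res q (Ta i)) x)) *
        (rs (resM q M0) * ((3 / 4) ^ K * ∏ j, rs (res q (Tb j)))) := by
    apply sum_le_sum
    intro x hx
    rw [hIq, mem_filter] at hx
    have hb := bpart hB.dbb q x K (hbad x hx.1 hx.2)
    have e1 : 0 ≤ ∏ i, rs (dv (res q (Ta i)) x) := prod_nonneg fun _ _ => rs_nonneg _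
    have e2 := rs_nonneg (resM q M0)
    calc rs (resM q M0) * (∏ i, rs (dv (res q (Ta i)) x)) * ∏ j, rs (dv (res q (Tb j)) x)
        ≤ rs (resM q M0) * (∏ i, rs (dv (res q (Ta i)) x)) *
          ((3 / 4) ^ K * ∏ j, rs (res q (Tb j))) := by gcongr
      _ = _ := by ring
  rw [← sum_mul] at h4
  have h5 : ∑ x ∈ Iq, ∏ i, rs (dv (res q (Ta i)) x) ≤ ∏ i, rs (res q (Ta i)) := by
    refine le_trans ?_ (apart (h := h) (η := η) (fun i t ht => (hB.pa i t ht).1) hB.daa ha q)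
    apply sum_le_sum_of_subset_of_nonneg (filter_subset _ _)
    intro _ _ _
    exact prod_nonneg fun _ _ => rs_nonneg _
  have h6 : 0 ≤ rs (resM q M0) * ((3 / 4) ^ K * ∏ j, rs (res q (Tb j))) := by
    have e2 := rs_nonneg (resM q M0)
    have e1 : 0 ≤ ∏ j, rs (res q (Tb j)) := prod_nonneg fun _ _ => rs_nonneg _
    positivity
  calc ∑ n ∈ Dq, (1 : ℝ) / n = ∑ n ∈ Dq, wt (φ n) := h1
    _ ≤ ∑ y ∈ big, wt y := h2
    _ ≤ _ := h3
    _ ≤ _ := h4
    _ ≤ (∏ i, rs (res q (Ta i))) * (rs (resM q M0) * ((3 / 4) ^ K * ∏ j, rs (res q (Tb j)))) :=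
        mul_le_mul_of_nonneg_right h5 h6
    _ = (3 / 4) ^ K * bd M0 Ta Tb q := by unfold bd; ring

/-- all primes which occur often divide the same element of the interval -/
theorem common_multiple {M0 : ℕ} {Ta : α → Finset ℕ} {Tb : β → Finset ℕ} (hB : Blocks M0 Ta Tb)
    {h η : ℤ} (ha : ∀ a ∈ Fintype.piFinset Ta, 2 * η < ∏ i, ((a i : ℕ) : ℤ))
    (hV : ∀ j, ∀ V ⊆ Tb j, rs (Tb j) / 2 ≤ rs V → 2 * η < ∏ t ∈ V, ((t : ℕ) : ℤ))
    (D : Finset ℕ) (hD : D ⊆ NN M0 Ta Tb) (hDI : ∀ n ∈ D, ∃ x ∈ II h η, ((n : ℕ) : ℤ) ∣ x)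
    (K : ℕ) (hK : 2 * K < Fintype.card β) (Q : Finset ℕ) (hQ : ∀ q ∈ Q, q.Prime)
    (hQ2 : ∀ q ∈ Q, (3 / 4) ^ K * bd M0 Ta Tb q <
      ∑ n ∈ D.filter (fun n => q ∣ n), (1 : ℝ) / n) (hQne : Q.Nonempty) :
    ∃ x ∈ II h η, ∀ q ∈ Q, ((q : ℕ) : ℤ) ∣ x := by
  classical
  have h1 : ∀ q ∈ Q, ∃ x ∈ II h η, ((q : ℕ) : ℤ) ∣ x ∧ (bad Tb x).card ≤ K := by
    intro q hq
    by_contra hcon
    push Not at hcon
    have := sum_Dq_le hB ha D hD hDI q (hQ q hq) K hcon
    exact absurd this (not_le.2 (hQ2 q hq))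
  choose! f hf1 hf2 hf3 using h1
  have h2 : ∀ q ∈ Q, ∀ q' ∈ Q, f q = f q' := by
    intro q hq q' hq'
    -- a common good index
    obtain ⟨j, hj⟩ : ∃ j : β, j ∉ bad Tb (f q) ∧ j ∉ bad Tb (f q') := by
      by_contra hcon
      push Not at hcon
      have hun : (univ : Finset β) ⊆ bad Tb (f q) ∪ bad Tb (f q') := by
        intro j _
        rw [mem_union]
        by_cases hj : j ∈ bad Tb (f q)
        · exact Or.inl hj
        · exact Or.inr (hcon j hj)
      have hc := card_le_card hun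
      have hc2 := card_union_le (bad Tb (f q)) (bad Tb (f q'))
      have h3 := hf3 q hq
      have h4 := hf3 q' hq'
      rw [card_univ] at hc
      omega
    obtain ⟨hj1, hj2⟩ := hj
    unfold bad at hj1 hj2
    rw [mem_filter] at hj1 hj2
    have g1 : 3 / 4 * rs (Tb j) ≤ rs (dv (Tb j) (f q)) := by
      by_contra hcon; exact hj1 ⟨mem_univ _, not_le.1 hcon⟩
    have g2 : 3 / 4 * rs (Tb j) ≤ rs (dv (Tb j) (f q')) := by
      by_contra hcon; exact hj2 ⟨mem_univ _, not_le.1 hcon⟩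
    set V := dv (Tb j) (f q) ∩ dv (Tb j) (f q') with hVdef
    have hVsub : V ⊆ Tb j := inter_subset_left.trans (dv_subset _ _)
    have hVrs : rs (Tb j) / 2 ≤ rs V := by
      have e1 : rs (dv (Tb j) (f q) ∪ dv (Tb j) (f q')) + rs V =
          rs (dv (Tb j) (f q)) + rs (dv (Tb j) (f q')) := sum_union_inter
      have e2 : rs (dv (Tb j) (f q) ∪ dv (Tb j) (f q')) ≤ rs (Tb j) :=
        rs_mono (union_subset (dv_subset _ _) (dv_subset _ _))
      linarith
    have hprod := hV j V hVsub hVrs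
    have hdiv : ∀ z : ℤ, (∀ t ∈ V, ((t : ℕ) : ℤ) ∣ z) → (∏ t ∈ V, ((t : ℕ) : ℤ)) ∣ z := by
      intro z hz
      apply Finset.prod_dvd_of_coprime
      · intro t ht t' ht' htt
        have h3 : t.Coprime t' := by
          rw [Nat.coprime_primes (hB.pb j _ (hVsub ht)).1 (hB.pb j _ (hVsub ht')).1]
          exact htt
        exact Nat.isCoprime_iff_coprime.2 h3
      · exact hz
    apply unique_in_II hprod (hf1 q hq) (hf1 q' hq')
    · apply hdiv
      intro t ht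
      have := (mem_inter.1 ht).1
      unfold dv at this
      exact (mem_filter.1 this).2
    · apply hdiv
      intro t ht
      have := (mem_inter.1 ht).2
      unfold dv at this
      exact (mem_filter.1 this).2
  obtain ⟨q0, hq0⟩ := hQne
  refine ⟨f q0, hf1 q0 hq0, fun q hq => ?_⟩
  rw [h2 q0 hq0 q hq]
  exact hf2 q hq

end Pool.Agent.W11.Hahn
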