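import Mathlib
import Pool.Agent.W11.Hahn.Fourier
import Pool.Agent.W11.Hahn.Struct

set_option autoImplicit false

/-! Basic properties of the products. -/

namespace Pool.Agent.W11.Hahn

open Finset

lemma sqf_prod {ι : Type} (s : Finset ι) (f : ι → ℕ) (hp : ∀ i ∈ s, (f i).Prime)
    (hinj : ∀ i ∈ s, ∀ j ∈ s, i ≠ j → f i ≠ f j) : Squarefree (∏ i ∈ s, f i) := by
  classical
  induction s using Finset.induction_on with
  | empty => simp
  | insert a s ha ih =>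
    rw [prod_insert ha, Nat.squarefree_mul_iff]
    refine ⟨?_, (hp a (mem_insert_self _ _)).prime.squarefree, ?_⟩
    · apply Nat.Coprime.prod_right
      intro i hi
      rw [Nat.coprime_primes (hp a (mem_insert_self _ _)) (hp i (mem_insert_of_mem hi))]
      apply hinj a (mem_insert_self _ _) i (mem_insert_of_mem hi)
      rintro rfl; exact ha hi
    · apply ih
      · intro i hi; exact hp i (mem_insert_of_mem hi)
      · intro i hi j hj; exact hinj i (mem_insert_of_mem hi) j (mem_insert_of_mem hj)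

/-- assumptions on the parameters -/
structure Setup (r Z M0 : ℕ) (Ta : Fin (5 * r) → Finset ℕ) (Tb : Fin (3 * r) → Finset ℕ)
    (σ : ℝ) : Prop where
  bl : Blocks M0 Ta Tb
  hr : 3 ≤ r
  hZ : 22 ≤ Z
  M0Z : M0 ≤ Z
  M0sq : Squarefree M0
  ta : ∀ i, ∀ t ∈ Ta i, Z ^ 8 < t ∧ t ≤ Z ^ 9
  tb : ∀ j, ∀ t ∈ Tb j, Z ^ 8 < t ∧ t ≤ Z ^ 9
  σpos : 0 < σ
  σ1 : σ ≤ 1
  sa : ∀ i, σ ≤ rs (Ta i)
  sb : ∀ j, σ ≤ rs (Tb j)
  σZ : 10 * (r : ℝ) ≤ σ * (Z : ℝ) ^ 8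

section

variable {r Z M0 : ℕ} {Ta : Fin (5 * r) → Finset ℕ} {Tb : Fin (3 * r) → Finset ℕ} {σ : ℝ}

lemma mem_NN {n : ℕ} : n ∈ NN M0 Ta Tb ↔ ∃ m ∈ M0.divisors, ∃ a ∈ Fintype.piFinset Ta,
    ∃ b ∈ Fintype.piFinset Tb, m * (∏ i, a i) * (∏ j, b j) = n := by
  unfold NN
  rw [mem_image]
  constructor
  · rintro ⟨⟨m, a, b⟩, hy, hval⟩
    simp only [mem_product] at hy
    exact ⟨m, hy.1, a, hy.2.1, b, hy.2.2, hval⟩
  · rintro ⟨m, hm, a, ha, b, hb, hval⟩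
    refine ⟨⟨m, a, b⟩, ?_, hval⟩
    simp only [mem_product]
    exact ⟨hm, ha, hb⟩

lemma NN_lower (S : Setup r Z M0 Ta Tb σ) {n : ℕ} (hn : n ∈ NN M0 Ta Tb) :
    Z ^ (64 * r) ≤ n := by
  rw [mem_NN] at hn
  obtain ⟨m, hm, a, ha, b, hb, rfl⟩ := hn
  rw [Fintype.mem_piFinset] at ha hb
  have h1 : (Z ^ 8) ^ (univ : Finset (Fin (5 * r))).card ≤ ∏ i, a i :=
    pow_card_le_prod _ _ _ (fun i _ => (S.ta i _ (ha i)).1.le)
  have h2 : (Z ^ 8) ^ (univ : Finset (Fin (3 * r))).card ≤ ∏ j, b j :=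
    pow_card_le_prod _ _ _ (fun i _ => (S.tb i _ (hb i)).1.le)
  rw [card_univ, Fintype.card_fin] at h1 h2
  have h3 : 1 ≤ m := Nat.pos_of_mem_divisors hm
  calc Z ^ (64 * r) = 1 * (Z ^ 8) ^ (5 * r) * (Z ^ 8) ^ (3 * r) := by ring
    _ ≤ m * (∏ i, a i) * (∏ j, b j) := Nat.mul_le_mul (Nat.mul_le_mul h3 h1) h2

lemma NN_upper (S : Setup r Z M0 Ta Tb σ) {n : ℕ} (hn : n ∈ NN M0 Ta Tb) :
    n ≤ Z ^ (72 * r + 1) := by
  rw [mem_NN] at hn
  obtain ⟨m, hm, a, ha, b, hb, rfl⟩ := hn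
  rw [Fintype.mem_piFinset] at ha hb
  have h1 : ∏ i, a i ≤ (Z ^ 9) ^ (univ : Finset (Fin (5 * r))).card :=
    prod_le_pow_card _ _ _ (fun i _ => (S.ta i _ (ha i)).2)
  have h2 : ∏ j, b j ≤ (Z ^ 9) ^ (univ : Finset (Fin (3 * r))).card :=
    prod_le_pow_card _ _ _ (fun i _ => (S.tb i _ (hb i)).2)
  rw [card_univ, Fintype.card_fin] at h1 h2
  have h3 : m ≤ Z := (Nat.divisor_le hm).trans S.M0Z
  calc m * (∏ i, a i) * (∏ j, b j) ≤ Z * (Z ^ 9) ^ (5 * r) * (Z ^ 9) ^ (3 * r) :=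
        Nat.mul_le_mul (Nat.mul_le_mul h3 h1) h2
    _ = Z ^ (72 * r + 1) := by ring

lemma NN_sqf (S : Setup r Z M0 Ta Tb σ) {n : ℕ} (hn : n ∈ NN M0 Ta Tb) : Squarefree n := by
  rw [mem_NN] at hn
  obtain ⟨m, hm, a, ha, b, hb, rfl⟩ := hn
  rw [Fintype.mem_piFinset] at ha hb
  have hmd : m ∣ M0 := Nat.dvd_of_mem_divisors hm
  have hpa : ∀ i, (a i).Prime := fun i => (S.bl.pa i _ (ha i)).1
  have hpb : ∀ i, (b i).Prime := fun i => (S.bl.pb i _ (hb i)).1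
  rw [Nat.squarefree_mul_iff, Nat.squarefree_mul_iff]
  refine ⟨?_, ⟨?_, S.M0sq.squarefree_of_dvd hmd, ?_⟩, ?_⟩
  · apply Nat.Coprime.prod_right
    intro j _
    apply Nat.Coprime.mul_left
    · apply Nat.Coprime.symm
      rw [(hpb j).coprime_iff_not_dvd]
      intro h
      exact (S.bl.pb j _ (hb j)).2 (h.trans hmd)
    · apply Nat.Coprime.prod_left
      intro i _
      rw [Nat.coprime_primes (hpa i) (hpb j)]
      intro h
      exact S.bl.dab i j _ (ha i) (h ▸ hb j)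
  · apply Nat.Coprime.prod_right
    intro i _
    apply Nat.Coprime.symm
    rw [(hpa i).coprime_iff_not_dvd]
    intro h
    exact (S.bl.pa i _ (ha i)).2 (h.trans hmd)
  · apply sqf_prod
    · intro i _; exact hpa i
    · intro i _ j _ hij h
      exact S.bl.daa i j hij _ (ha i) (h ▸ ha j)
  · apply sqf_prod
    · intro i _; exact hpb i
    · intro i _ j _ hij h
      exact S.bl.dbb i j hij _ (hb i) (h ▸ hb j)

lemma NN_prime (S : Setup r Z M0 Ta Tb σ) {n : ℕ} (hn : n ∈ NN M0 Ta Tb) {q : ℕ} (hq : q.Prime)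
    (hqn : q ∣ n) : q ∣ M0 ∨ (∃ i, q ∈ Ta i) ∨ ∃ j, q ∈ Tb j := by
  rw [mem_NN] at hn
  obtain ⟨m, hm, a, ha, b, hb, rfl⟩ := hn
  rw [Fintype.mem_piFinset] at ha hb
  have hmd : m ∣ M0 := Nat.dvd_of_mem_divisors hm
  rcases (hq.dvd_mul).1 hqn with h | h
  · rcases (hq.dvd_mul).1 h with h1 | h1
    · exact Or.inl (h1.trans hmd)
    · rw [hq.prime.dvd_finsetProd_iff] at h1
      obtain ⟨i, -, hi⟩ := h1
      refine Or.inr (Or.inl ⟨i, ?_⟩)
      rw [(Nat.prime_dvd_prime_iff_eq hq (S.bl.pa i _ (ha i)).1).1 hi]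
      exact ha i
  · rw [hq.prime.dvd_finsetProd_iff] at h
    obtain ⟨j, -, hj⟩ := h
    refine Or.inr (Or.inr ⟨j, ?_⟩)
    rw [(Nat.prime_dvd_prime_iff_eq hq (S.bl.pb j _ (hb j)).1).1 hj]
    exact hb j

lemma NN_prime_le (S : Setup r Z M0 Ta Tb σ) {n : ℕ} (hn : n ∈ NN M0 Ta Tb) {q : ℕ}
    (hq : q.Prime) (hqn : q ∣ n) : q ≤ Z ^ 9 := by
  rcases NN_prime S hn hq hqn with h | ⟨i, h⟩ | ⟨j, h⟩
  · have h1 : q ≤ M0 := Nat.le_of_dvd S.bl.M0pos h
    have hZ := S.hZ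
    calc q ≤ Z := h1.trans S.M0Z
      _ = Z ^ 1 := (pow_one _).symm
      _ ≤ Z ^ 9 := Nat.pow_le_pow_right (by omega) (by norm_num)
  · exact (S.ta i q h).2
  · exact (S.tb j q h).2

lemma res_eq {q : ℕ} {X : Finset ℕ} (h : q ∉ X) : res q X = X := by
  unfold res; rw [if_neg h]

lemma rs_res {q : ℕ} {X : Finset ℕ} (h : q ∈ X) : rs (res q X) = 1 / q := by
  unfold res; rw [if_pos h]; unfold rs; rw [sum_singleton]

lemma prod_res_le {ι : Type} [Fintype ι] [DecidableEq ι] (T : ι → Finset ℕ)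
    (hd : ∀ i j, i ≠ j → ∀ t ∈ T i, t ∉ T j) (τ : ℝ) (hτ : 0 < τ) (hs : ∀ i, τ ≤ rs (T i))
    (q : ℕ) (hq0 : 0 < q) (i : ι) (hq : q ∈ T i) :
    ∏ i', rs (res q (T i')) ≤ 1 / (q * τ) * ∏ i', rs (T i') := by
  have h1 : ∏ i', rs (res q (T i')) ≤
      ∏ i', ((if i' = i then 1 / (q * τ) else 1) * rs (T i')) := by
    apply prod_le_prod
    · intro _ _; exact rs_nonneg _
    · intro i' _
      split_ifs with h
      · rw [h, rs_res hq]
        have h2 := hs i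
        have h3 : (0 : ℝ) < q := by exact_mod_cast hq0
        calc (1 : ℝ) / q = 1 / (q * τ) * τ := by field_simp
          _ ≤ 1 / (q * τ) * rs (T i) := by gcongr
      · rw [one_mul, res_eq]
        intro h3
        exact hd i' i h q h3 hq
  refine h1.trans (le_of_eq ?_)
  rw [prod_mul_distrib, prod_ite_eq' univ i (fun _ => 1 / ((q : ℝ) * τ)), if_pos (mem_univ i)]

lemma rs_resM_le {q : ℕ} (hq0 : 0 < q) (hM : 0 < M0) (hq : q ∣ M0) :
    rs (resM q M0) ≤ 1 / q * rs M0.divisors := by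
  have h1 : resM q M0 ⊆ M0.divisors.image (fun m => q * m) := by
    intro m hm
    unfold resM at hm
    rw [if_pos hq, mem_filter, Nat.mem_divisors] at hm
    obtain ⟨⟨h2, _⟩, m', rfl⟩ := hm
    rw [mem_image]
    refine ⟨m', ?_, rfl⟩
    rw [Nat.mem_divisors]
    exact ⟨(dvd_mul_left m' q).trans h2, hM.ne'⟩
  refine (rs_mono h1).trans (le_of_eq ?_)
  unfold rs
  rw [sum_image, mul_sum]
  · apply sum_congr rfl
    intro m _
    push_cast
    rw [one_div_mul_one_div]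
  · intro x _ y _ hxy
    exact Nat.eq_of_mul_eq_mul_left hq0 hxy

/-- total mass -/
noncomputable def HH (M0 : ℕ) (Ta : Fin (5 * r) → Finset ℕ) (Tb : Fin (3 * r) → Finset ℕ) : ℝ :=
  rs M0.divisors * (∏ i, rs (Ta i)) * ∏ j, rs (Tb j)

lemma HH_nonneg : 0 ≤ HH M0 Ta Tb := by
  unfold HH
  have h1 : 0 ≤ ∏ i, rs (Ta i) := prod_nonneg fun _ _ => rs_nonneg _
  have h2 : 0 ≤ ∏ i, rs (Tb i) := prod_nonneg fun _ _ => rs_nonneg _
  have h3 := rs_nonneg M0.divisors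
  positivity

lemma bd_le (S : Setup r Z M0 Ta Tb σ) {q : ℕ} (hq : q.Prime)
    (h : q ∣ M0 ∨ (∃ i, q ∈ Ta i) ∨ ∃ j, q ∈ Tb j) :
    bd M0 Ta Tb q ≤ 1 / (q * σ) * HH M0 Ta Tb := by
  have hq0 : (0 : ℝ) < q := by exact_mod_cast hq.pos
  have hσ := S.σpos
  have n1 : 0 ≤ ∏ i, rs (Ta i) := prod_nonneg fun _ _ => rs_nonneg _
  have n2 : 0 ≤ ∏ i, rs (Tb i) := prod_nonneg fun _ _ => rs_nonneg _
  have n3 := rs_nonneg M0.divisors
  unfold bd HH
  rcases h with h | ⟨i, h⟩ | ⟨j, h⟩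
  · have e1 : ∀ i, res q (Ta i) = Ta i := fun i => res_eq (fun h1 => (S.bl.pa i q h1).2 h)
    have e2 : ∀ i, res q (Tb i) = Tb i := fun i => res_eq (fun h1 => (S.bl.pb i q h1).2 h)
    simp only [e1, e2]
    have e3 := rs_resM_le hq.pos S.bl.M0pos h
    calc rs (resM q M0) * (∏ i, rs (Ta i)) * ∏ j, rs (Tb j)
        ≤ (1 / q * rs M0.divisors) * (∏ i, rs (Ta i)) * ∏ j, rs (Tb j) := by gcongr
      _ = 1 / (q * 1) * (rs M0.divisors * (∏ i, rs (Ta i)) * ∏ j, rs (Tb j)) := by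
          rw [mul_one]; ring
      _ ≤ _ := by
          have := S.σ1
          gcongr
  · have e0 : resM q M0 = M0.divisors := by
      unfold resM; rw [if_neg (S.bl.pa i q h).2]
    have e2 : ∀ j, res q (Tb j) = Tb j := fun j => res_eq (S.bl.dab i j q h)
    have e3 := prod_res_le Ta S.bl.daa σ hσ S.sa q hq.pos i h
    simp only [e0, e2]
    calc rs M0.divisors * (∏ i, rs (res q (Ta i))) * ∏ j, rs (Tb j)
        ≤ rs M0.divisors * (1 / (q * σ) * ∏ i, rs (Ta i)) * ∏ j, rs (Tb j) := by gcongr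
      _ = _ := by ring
  · have e0 : resM q M0 = M0.divisors := by
      unfold resM; rw [if_neg (S.bl.pb j q h).2]
    have e2 : ∀ i, res q (Ta i) = Ta i := fun i => res_eq (fun h1 => S.bl.dab i j q h1 h)
    have e3 := prod_res_le Tb S.bl.dbb σ hσ S.sb q hq.pos j h
    simp only [e0, e2]
    calc rs M0.divisors * (∏ i, rs (Ta i)) * ∏ j, rs (res q (Tb j))
        ≤ rs M0.divisors * (∏ i, rs (Ta i)) * (1 / (q * σ) * ∏ j, rs (Tb j)) := by gcongr
      _ = _ := by ring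

/-- the representation is unique -/
lemma rs_NN (S : Setup r Z M0 Ta Tb σ) : rs (NN M0 Ta Tb) = HH M0 Ta Tb := by
  classical
  have hinj : Set.InjOn (fun y : ℕ × (Fin (5 * r) → ℕ) × (Fin (3 * r) → ℕ) =>
      y.1 * (∏ i, y.2.1 i) * ∏ j, y.2.2 j)
      ((M0.divisors ×ˢ Fintype.piFinset Ta ×ˢ Fintype.piFinset Tb : Finset _) :
        Set (ℕ × (Fin (5 * r) → ℕ) × (Fin (3 * r) → ℕ))) := by
    rintro ⟨m, a, b⟩ hy ⟨m', a', b'⟩ hy' heq
    rw [mem_coe] at hy hy'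
    simp only [mem_product] at hy hy'
    simp only at heq
    obtain ⟨hm, ha, hb⟩ := hy
    obtain ⟨hm', ha', hb'⟩ := hy'
    have ha1 := Fintype.mem_piFinset.1 ha
    have hb1 := Fintype.mem_piFinset.1 hb
    have ea : a = a' := by
      funext i
      have hd : a i ∣ m' * (∏ i, a' i) * ∏ j, b' j := by
        rw [← heq]
        exact ((dvd_prod_of_mem a (mem_univ i)).trans (dvd_mul_left _ _)).trans (dvd_mul_right _ _)
      have := (mem_res_of S.bl (S.bl.pa i _ (ha1 i)).1 hm' ha' hb' hd).2.1 i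
      unfold res at this
      rw [if_pos (ha1 i), mem_singleton] at this
      exact this.symm
    have eb : b = b' := by
      funext j
      have hd : b j ∣ m' * (∏ i, a' i) * ∏ j, b' j := by
        rw [← heq]
        exact (dvd_prod_of_mem b (mem_univ j)).trans (dvd_mul_left _ _)
      have := (mem_res_of S.bl (S.bl.pb j _ (hb1 j)).1 hm' ha' hb' hd).2.2 j
      unfold res at this
      rw [if_pos (hb1 j), mem_singleton] at this
      exact this.symm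
    subst ea
    subst eb
    have p1 : 0 < ∏ i, a i := prod_pos fun i _ => (S.bl.pa i _ (ha1 i)).1.pos
    have p2 : 0 < ∏ i, b i := prod_pos fun i _ => (S.bl.pb i _ (hb1 i)).1.pos
    have em : m = m' := Nat.eq_of_mul_eq_mul_right p1 (Nat.eq_of_mul_eq_mul_right p2 heq)
    subst em
    rfl
  unfold rs NN
  rw [sum_image hinj]
  have e1 : ∀ y ∈ M0.divisors ×ˢ Fintype.piFinset Ta ×ˢ Fintype.piFinset Tb,
      (1 : ℝ) / ((y.1 * (∏ i, y.2.1 i) * ∏ j, y.2.2 j : ℕ) : ℝ) =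
      (1 / (y.1 : ℝ)) * (∏ i, (1 : ℝ) / (y.2.1 i)) * ∏ j, (1 : ℝ) / (y.2.2 j) := by
    intro y _
    rw [← prod_recip, ← prod_recip]
    push_cast
    rw [one_div_mul_one_div, one_div_mul_one_div]
  rw [sum_congr rfl e1, sum_product]
  rw [triple_sum (fun m : ℕ => (1 : ℝ) / (m : ℝ)) (fun a : Fin (5 * r) → ℕ => ∏ i, (1 : ℝ) / (a i))
    (fun b : Fin (3 * r) → ℕ => ∏ j, (1 : ℝ) / (b j))]
  rw [sum_pi, sum_pi]
  rfl

end

end Pool.Agent.W11.Hahn
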