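import Mathlib
import Pool.Agent.W11.Hahn.Core1

set_option autoImplicit false

/-! The main analytic step. -/

namespace Pool.Agent.W11.Hahn

open Finset

lemma nu_eq {y : ℝ} (hy : |y| < 1 / 2) : nu y = |y| := by
  have h := abs_lt.1 hy
  have hr : round y = 0 := by
    rw [round_eq_zero_iff]
    constructor
    · linarith [h.1]
    · exact h.2
  unfold nu
  rw [hr]; simp

lemma nu_gt {h η : ℤ} {n : ℕ} (hn : 0 < n) (hno : ¬ ∃ x ∈ II h η, ((n : ℕ) : ℤ) ∣ x) :
    (η : ℝ) / n ≤ nu ((h : ℝ) / n) := by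
  by_contra hcon
  push Not at hcon
  apply hno
  have hn' : (0 : ℝ) < n := by exact_mod_cast hn
  refine ⟨n * round ((h : ℝ) / n), ?_, dvd_mul_right _ _⟩
  have h1 : |(h : ℝ) - n * round ((h : ℝ) / n)| ≤ η := by
    have e : (h : ℝ) - n * round ((h : ℝ) / n) = n * ((h : ℝ) / n - round ((h : ℝ) / n)) := by
      field_simp
    rw [e, abs_mul, abs_of_pos hn']
    unfold nu at hcon
    rw [lt_div_iff₀ hn'] at hcon
    linarith
  have h2 : |h - n * round ((h : ℝ) / n)| ≤ η := by exact_mod_cast h1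
  unfold II
  rw [mem_Icc]
  rw [abs_le] at h2
  constructor <;> linarith [h2.1, h2.2]

lemma exp_bound {Z P : ℕ} (hZ : 22 ≤ Z) (hP0 : 0 < P) (hP : P ≤ 4 ^ (Z ^ 9)) :
    Real.exp (-((Z : ℝ) ^ 10)) ≤ 1 / (4 * P) := by
  have hPr : (0 : ℝ) < P := by exact_mod_cast hP0
  rw [Real.exp_neg, ← one_div]
  apply one_div_le_one_div_of_le (by positivity)
  have h1 : (4 : ℝ) * P ≤ 4 ^ (Z ^ 9 + 1) := by
    rw [pow_succ]
    have : (P : ℝ) ≤ 4 ^ (Z ^ 9) := by exact_mod_cast hP
    linarith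
  have h2 : (4 : ℝ) ≤ Real.exp 2 := by
    have h3 : (2 : ℝ) ≤ Real.exp 1 := by
      have := Real.add_one_le_exp (1 : ℝ)
      linarith
    have h4 : Real.exp 2 = Real.exp 1 * Real.exp 1 := by
      rw [← Real.exp_add]; norm_num
    rw [h4]; nlinarith
  calc (4 : ℝ) * P ≤ 4 ^ (Z ^ 9 + 1) := h1
    _ ≤ (Real.exp 2) ^ (Z ^ 9 + 1) := pow_le_pow_left₀ (by norm_num) h2 _
    _ = Real.exp ((Z ^ 9 + 1 : ℕ) * 2) := by rw [← Real.exp_nat_mul]
    _ ≤ Real.exp ((Z : ℝ) ^ 10) := by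
        apply Real.exp_le_exp.2
        push_cast
        have hz : (22 : ℝ) ≤ Z := by exact_mod_cast hZ
        have h5 : (1 : ℝ) ≤ (Z : ℝ) ^ 9 := one_le_pow₀ (by linarith)
        calc ((Z : ℝ) ^ 9 + 1) * 2 ≤ ((Z : ℝ) ^ 9 + (Z : ℝ) ^ 9) * 2 := by linarith
          _ = (Z : ℝ) ^ 9 * 4 := by ring
          _ ≤ (Z : ℝ) ^ 9 * Z := by
              apply mul_le_mul_of_nonneg_left _ (by positivity)
              linarith
          _ = (Z : ℝ) ^ 10 := by ring

section

variable {r Z M0 : ℕ} {Ta : Fin (5 * r) → Finset ℕ} {Tb : Fin (3 * r) → Finset ℕ} {σ : ℝ}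

theorem core (S : Setup r Z M0 Ta Tb σ) (e0 : ℝ) (he0 : 0 < e0) (heZ : 2 ≤ e0 * Z)
    (hsmall : (3 / 4) ^ r * (1 / σ * HH M0 Ta Tb) < e0 / 2)
    (A : Finset ℕ) (hA : A ⊆ NN M0 Ta Tb) (hT1 : 17 / 10 ≤ rs A) (hT2 : rs A < 195 / 100)
    (hq : ∀ n ∈ A, ∀ q : ℕ, q.Prime → q ∣ n →
      e0 / q ≤ ∑ n ∈ A.filter (fun n => q ∣ n), (1 : ℝ) / n) :
    ∃ B ⊆ A, ∑ n ∈ B, (1 : ℝ) / n = 1 := by
  classical
  have hZ := S.hZ
  have hr := S.hr
  have hz : (22 : ℝ) ≤ Z := by exact_mod_cast hZ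
  have hz0 : (0 : ℝ) < Z := by linarith
  have hz1 : (1 : ℝ) ≤ Z := by linarith
  have hZ0 : 0 < Z := by omega
  set Q := A.biUnion Nat.primeFactors with hQdef
  set P := ∏ q ∈ Q, q with hPdef
  have hApos : ∀ n ∈ A, 0 < n := fun n hn =>
    lt_of_lt_of_le (pow_pos hZ0 _) (NN_lower S (hA hn))
  have hQprime : ∀ q ∈ Q, q.Prime := by
    intro q hqq
    rw [hQdef, mem_biUnion] at hqq
    obtain ⟨n, _, h⟩ := hqq
    exact Nat.prime_of_mem_primeFactors h
  have hP0 : 0 < P := prod_pos fun q hqq => (hQprime q hqq).pos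
  have hdiv : ∀ n ∈ A, n ∣ P := by
    intro n hn
    rw [← Nat.prod_primeFactors_of_squarefree (NN_sqf S (hA hn))]
    exact prod_dvd_prod_of_subset _ _ _ (subset_biUnion_of_mem Nat.primeFactors hn)
  have hQmem : ∀ q ∈ Q, ∃ n ∈ A, q ∣ n := by
    intro q hqq
    rw [hQdef, mem_biUnion] at hqq
    obtain ⟨n, hn, h⟩ := hqq
    exact ⟨n, hn, Nat.dvd_of_mem_primeFactors h⟩
  have hQle : ∀ q ∈ Q, q ≤ Z ^ 9 := by
    intro q hqq
    obtain ⟨n, hn, h⟩ := hQmem q hqq
    exact NN_prime_le S (hA hn) (hQprime q hqq) h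
  have hP4 : P ≤ 4 ^ (Z ^ 9) := by
    refine le_trans ?_ (primorial_le_four_pow (Z ^ 9))
    unfold primorial
    apply prod_le_prod_of_subset_of_one_le'
    · intro q hqq
      rw [mem_filter, mem_range]
      exact ⟨Nat.lt_succ_of_le (hQle q hqq), hQprime q hqq⟩
    · intro q hqq _
      rw [mem_filter] at hqq
      exact hqq.2.pos
  have hAne : A.Nonempty := by
    rw [nonempty_iff_ne_empty]
    rintro rfl
    unfold rs at hT1
    rw [sum_empty] at hT1
    norm_num at hT1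
  obtain ⟨n0, hn0⟩ := hAne
  have hPlow : Z ^ (64 * r) ≤ P :=
    (NN_lower S (hA hn0)).trans (Nat.le_of_dvd hP0 (hdiv n0 hn0))
  set T := rs A with hT
  have hTpos : 0 < T := by linarith
  set p := 1 / T with hp
  have hpT : p * T = 1 := by rw [hp]; field_simp
  have hp0 : 0 ≤ p := by positivity
  have hp12 : 1 / 2 ≤ p := by
    rw [hp]; apply one_div_le_one_div_of_le hTpos; linarith
  have hp34 : p ≤ 3 / 4 := by
    rw [hp, div_le_iff₀ hTpos]; linarith
  have hp1 : p ≤ 1 := by linarith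
  have hpp : 1 / 8 ≤ p * (1 - p) := by nlinarith
  -- lower and upper bounds in the reals
  have hlo : ∀ n ∈ A, (Z : ℝ) ^ (64 * r) ≤ n := by
    intro n hn; exact_mod_cast NN_lower S (hA hn)
  have hup : ∀ n ∈ A, (n : ℝ) ≤ (Z : ℝ) ^ (72 * r + 1) := by
    intro n hn; exact_mod_cast NN_upper S (hA hn)
  have hcard : Z ^ (64 * r) ≤ A.card := by
    have h1 : T ≤ A.card * (1 / (Z : ℝ) ^ (64 * r)) := by
      rw [hT]; unfold rs
      rw [← nsmul_eq_mul]
      apply sum_le_card_nsmul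
      intro n hn
      apply one_div_le_one_div_of_le (by positivity)
      exact hlo n hn
    have h2 : (1 : ℝ) ≤ A.card * (1 / (Z : ℝ) ^ (64 * r)) := by linarith
    rw [mul_one_div, le_div_iff₀ (by positivity), one_mul] at h2
    exact_mod_cast h2
  have hbig : (P : ℝ) * (1 - p) ^ A.card < 3 / 4 := by
    have h1 : 2 * Z ^ 9 + 1 ≤ A.card := by
      refine le_trans ?_ hcard
      calc 2 * Z ^ 9 + 1 ≤ 2 * Z ^ 9 + Z ^ 9 := by
            have : 1 ≤ Z ^ 9 := Nat.one_le_pow _ _ hZ0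
            omega
        _ = Z ^ 9 * 3 := by ring
        _ ≤ Z ^ 9 * Z := Nat.mul_le_mul_left _ (by omega)
        _ = Z ^ 10 := by ring
        _ ≤ Z ^ (64 * r) := Nat.pow_le_pow_right hZ0 (by omega)
    have h2 : (1 - p) ^ A.card ≤ (1 / 2) ^ (2 * Z ^ 9 + 1) := by
      calc (1 - p) ^ A.card ≤ (1 / 2) ^ A.card :=
            pow_le_pow_left₀ (by linarith) (by linarith) _
        _ ≤ (1 / 2) ^ (2 * Z ^ 9 + 1) := pow_le_pow_of_le_one (by norm_num) (by norm_num) h1
    have h3 : (P : ℝ) ≤ 4 ^ (Z ^ 9) := by exact_mod_cast hP4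
    calc (P : ℝ) * (1 - p) ^ A.card ≤ 4 ^ (Z ^ 9) * (1 / 2) ^ (2 * Z ^ 9 + 1) := by
          apply mul_le_mul h3 h2 (pow_nonneg (by linarith) _) (by positivity)
      _ = 1 / 2 := by
          generalize Z ^ 9 = w
          rw [pow_succ, pow_mul, ← mul_assoc, ← mul_pow]; norm_num
      _ < 3 / 4 := by norm_num
  refine exists_sum_one A hApos P hP0 hdiv p hp0 hp1 (by change T < 2; linarith) hbig ?_
  intro h hh0 hhP
  -- it suffices to have a large sum of squares
  have hsuff : (Z : ℝ) ^ 10 ≤ ∑ n ∈ A, nu ((h : ℝ) / n) ^ 2 → ‖F A p h‖ ≤ 1 / (4 * P) := by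
    intro hs
    refine (norm_F_le A p hp0 hp1 hpp h).trans (le_trans ?_ (exp_bound hZ hP0 hP4))
    apply Real.exp_le_exp.2
    linarith
  set η : ℤ := (Z : ℤ) ^ (36 * r + 11) with hη
  have hη0 : 0 ≤ η := by positivity
  have hηr : (η : ℝ) = (Z : ℝ) ^ (36 * r + 11) := by rw [hη]; push_cast; ring
  have h2η : 2 * η < (Z : ℤ) ^ (40 * r) := by
    have h1 : (Z : ℤ) ^ (36 * r + 12) ≤ (Z : ℤ) ^ (40 * r) :=
      pow_le_pow_right₀ (by exact_mod_cast hZ0) (by omega)
    have h2 : (Z : ℤ) ^ (36 * r + 12) = (Z : ℤ) * η := by rw [hη]; ring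
    have h3 : (22 : ℤ) ≤ Z := by exact_mod_cast hZ
    have h4 : 0 < η := by rw [hη]; positivity
    nlinarith
  set D := A.filter (fun n => ∃ x ∈ II h η, ((n : ℕ) : ℤ) ∣ x) with hD
  by_cases hR : 1 / (Z : ℝ) ^ 10 ≤ rs (A \ D)
  · right
    apply hsuff
    have h1 : ∀ n ∈ A \ D, (Z : ℝ) ^ 21 * (1 / n) ≤ nu ((h : ℝ) / n) ^ 2 := by
      intro n hn
      rw [mem_sdiff, hD, mem_filter] at hn
      have hnA := hn.1
      have hno : ¬ ∃ x ∈ II h η, ((n : ℕ) : ℤ) ∣ x := fun h2 => hn.2 ⟨hnA, h2⟩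
      have hnpos : (0 : ℝ) < n := by exact_mod_cast hApos n hnA
      have h3 := nu_gt (hApos n hnA) hno
      have h4 : 0 ≤ (η : ℝ) / n := by
        rw [hηr]; positivity
      calc (Z : ℝ) ^ 21 * (1 / n) ≤ ((η : ℝ) / n) ^ 2 := by
            rw [hηr, div_pow, ← pow_mul, mul_one_div, div_le_div_iff₀ hnpos (by positivity)]
            have h5 := hup n hnA
            calc (Z : ℝ) ^ 21 * (n : ℝ) ^ 2 = ((Z : ℝ) ^ 21 * n) * n := by ring
              _ ≤ ((Z : ℝ) ^ 21 * (Z : ℝ) ^ (72 * r + 1)) * n := by gcongr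
              _ = (Z : ℝ) ^ ((36 * r + 11) * 2) * n := by ring
        _ ≤ nu ((h : ℝ) / n) ^ 2 := pow_le_pow_left₀ h4 h3 2
    calc (Z : ℝ) ^ 10 ≤ (Z : ℝ) ^ 21 * (1 / (Z : ℝ) ^ 10) := by
          rw [mul_one_div, le_div_iff₀ (by positivity), ← pow_add]
          exact pow_le_pow_right₀ hz1 (by norm_num)
      _ ≤ (Z : ℝ) ^ 21 * rs (A \ D) := by gcongr
      _ = ∑ n ∈ A \ D, (Z : ℝ) ^ 21 * (1 / n) := by unfold rs; rw [mul_sum]
      _ ≤ ∑ n ∈ A \ D, nu ((h : ℝ) / n) ^ 2 := sum_le_sum h1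
      _ ≤ ∑ n ∈ A, nu ((h : ℝ) / n) ^ 2 :=
          sum_le_sum_of_subset_of_nonneg sdiff_subset (fun _ _ _ => by positivity)
  · push Not at hR
    have hDA : D ⊆ A := filter_subset _ _
    have hDI : ∀ n ∈ D, ∃ x ∈ II h η, ((n : ℕ) : ℤ) ∣ x := fun n hn => (mem_filter.1 hn).2
    -- every prime occurs often in `D`
    have hQ2 : ∀ q ∈ Q, (3 / 4) ^ r * bd M0 Ta Tb q <
        ∑ n ∈ D.filter (fun n => q ∣ n), (1 : ℝ) / n := by
      intro q hqQ
      obtain ⟨n, hn, hqn⟩ := hQmem q hqQ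
      have hqp := hQprime q hqQ
      have hq0 : (0 : ℝ) < q := by exact_mod_cast hqp.pos
      have h1 := hq n hn q hqp hqn
      have h2 : ∑ n ∈ A.filter (fun n => q ∣ n), (1 : ℝ) / n ≤
          ∑ n ∈ D.filter (fun n => q ∣ n), (1 : ℝ) / n + rs (A \ D) := by
        unfold rs
        have h3 : A.filter (fun n => q ∣ n) ⊆ D.filter (fun n => q ∣ n) ∪ (A \ D) := by
          intro m hm
          rw [mem_filter] at hm
          rw [mem_union, mem_filter, mem_sdiff]
          by_cases hmD : m ∈ D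
          · exact Or.inl ⟨hmD, hm.2⟩
          · exact Or.inr ⟨hm.1, hmD⟩
        have hdisj : Disjoint (D.filter (fun n => q ∣ n)) (A \ D) := by
          rw [disjoint_left]
          intro m hm hm2
          exact (mem_sdiff.1 hm2).2 (mem_filter.1 hm).1
        rw [← sum_union hdisj]
        exact sum_le_sum_of_subset_of_nonneg h3 (fun _ _ _ => by positivity)
      have h4 : 1 / (Z : ℝ) ^ 10 ≤ e0 / (2 * q) := by
        have h5 : (q : ℝ) ≤ (Z : ℝ) ^ 9 := by exact_mod_cast hQle q hqQ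
        rw [div_le_div_iff₀ (by positivity) (by positivity)]
        calc (1 : ℝ) * (2 * q) ≤ 2 * (Z : ℝ) ^ 9 := by linarith
          _ ≤ (e0 * Z) * (Z : ℝ) ^ 9 := by gcongr
          _ = e0 * (Z : ℝ) ^ 10 := by ring
      have h5 : (3 / 4) ^ r * bd M0 Ta Tb q < e0 / (2 * q) := by
        have h6 := bd_le S hqp (NN_prime S (hA hn) hqp hqn)
        have hσ := S.σpos
        calc (3 / 4) ^ r * bd M0 Ta Tb q ≤ (3 / 4) ^ r * (1 / (q * σ) * HH M0 Ta Tb) := by
              gcongr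
          _ = ((3 / 4) ^ r * (1 / σ * HH M0 Ta Tb)) / q := by field_simp
          _ < (e0 / 2) / q := by
              apply div_lt_div_of_pos_right hsmall hq0
          _ = e0 / (2 * q) := by field_simp
      have h6 : e0 / (q : ℝ) = e0 / (2 * q) + e0 / (2 * q) := by field_simp; ring
      linarith
    have hQne : Q.Nonempty := by
      have h1 : n0 ≠ 1 := by
        have h2 := NN_lower S (hA hn0)
        have h3 : Z ^ 1 ≤ Z ^ (64 * r) := Nat.pow_le_pow_right hZ0 (by omega)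
        rw [pow_one] at h3
        omega
      refine ⟨n0.minFac, ?_⟩
      rw [hQdef, mem_biUnion]
      exact ⟨n0, hn0, Nat.mem_primeFactors.2 ⟨Nat.minFac_prime h1, Nat.minFac_dvd _,
        (hApos n0 hn0).ne'⟩⟩
    have hcm := common_multiple S.bl (h := h) (η := η) ?_ ?_ D (hDA.trans hA) hDI r ?_ Q hQprime
      hQ2 hQne
    · obtain ⟨x, hxI, hxQ⟩ := hcm
      unfold II at hxI
      rw [mem_Icc] at hxI
      have hx0 : x = 0 := by
        have h1 : P ∣ x.natAbs := by
          apply Finset.prod_primes_dvd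
          · intro q hqQ; exact (hQprime q hqQ).prime
          · intro q hqQ
            exact Int.natCast_dvd.1 (hxQ q hqQ)
        by_contra hne
        have h2 : P ≤ x.natAbs := Nat.le_of_dvd (Int.natAbs_pos.2 hne) h1
        have h3 : (P : ℤ) ≤ |x| := by
          rw [Int.abs_eq_natAbs]; exact_mod_cast h2
        have h4 : |x| ≤ |h| + η := by
          have h5 := abs_le.1 (le_refl |h|)
          rw [abs_le]
          constructor <;> linarith [hxI.1, hxI.2, h5.1, h5.2]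
        have h5 : (Z : ℤ) ^ (40 * r) ≤ P := by
          have : Z ^ (40 * r) ≤ P := (Nat.pow_le_pow_right hZ0 (by omega)).trans hPlow
          exact_mod_cast this
        linarith
      rw [hx0] at hxI
      have hhη : |h| ≤ η := by rw [abs_le]; constructor <;> linarith [hxI.1, hxI.2]
      have hhηr : |(h : ℝ)| ≤ (Z : ℝ) ^ (36 * r + 11) := by
        rw [← hηr]; exact_mod_cast hhη
      by_cases hbigh : (Z : ℝ) ^ (36 * r + 6) ≤ |(h : ℝ)|
      · right
        apply hsuff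
        have h1 : ∀ n ∈ A, (Z : ℝ) ^ 11 * (1 / n) ≤ nu ((h : ℝ) / n) ^ 2 := by
          intro n hn
          have hnpos : (0 : ℝ) < n := by exact_mod_cast hApos n hn
          have h2 : |(h : ℝ) / n| < 1 / 2 := by
            rw [abs_div, abs_of_pos hnpos, div_lt_iff₀ hnpos]
            have h3 := hlo n hn
            have h4 : (Z : ℝ) ^ (36 * r + 12) ≤ (Z : ℝ) ^ (64 * r) :=
              pow_le_pow_right₀ hz1 (by omega)
            have h5 : (Z : ℝ) ^ (36 * r + 12) = (Z : ℝ) ^ (36 * r + 11) * Z := by ring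
            have h6 : 0 < (Z : ℝ) ^ (36 * r + 11) := by positivity
            nlinarith
          rw [nu_eq h2, sq_abs, div_pow, mul_one_div, div_le_div_iff₀ hnpos (by positivity)]
          have h5 := hup n hn
          have h6 : (Z : ℝ) ^ ((36 * r + 6) * 2) ≤ (h : ℝ) ^ 2 := by
            rw [pow_mul, ← sq_abs (h : ℝ)]
            exact pow_le_pow_left₀ (by positivity) hbigh 2
          calc (Z : ℝ) ^ 11 * (n : ℝ) ^ 2 = ((Z : ℝ) ^ 11 * n) * n := by ring
            _ ≤ ((Z : ℝ) ^ 11 * (Z : ℝ) ^ (72 * r + 1)) * n := by gcongr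
            _ = (Z : ℝ) ^ ((36 * r + 6) * 2) * n := by ring
            _ ≤ (h : ℝ) ^ 2 * n := by gcongr
        calc (Z : ℝ) ^ 10 ≤ (Z : ℝ) ^ 11 * 1 := by
              rw [mul_one]; exact pow_le_pow_right₀ hz1 (by norm_num)
          _ ≤ (Z : ℝ) ^ 11 * T := by
              apply mul_le_mul_of_nonneg_left _ (by positivity)
              linarith
          _ = ∑ n ∈ A, (Z : ℝ) ^ 11 * (1 / n) := by rw [hT]; unfold rs; rw [mul_sum]
          _ ≤ ∑ n ∈ A, nu ((h : ℝ) / n) ^ 2 := sum_le_sum h1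
      · left
        push Not at hbigh
        -- bound of the angles
        have hang : ∀ n ∈ A, |2 * Real.pi * ((h : ℝ) / n)| ≤ (Z : ℝ) ^ (36 * r + 7) * (1 / n) := by
          intro n hn
          have hnpos : (0 : ℝ) < n := by exact_mod_cast hApos n hn
          rw [abs_mul, abs_div, abs_of_pos hnpos, abs_of_pos (by positivity : 0 < 2 * Real.pi),
            ← mul_div_assoc, mul_one_div]
          apply div_le_div_of_nonneg_right _ hnpos.le
          have hpi : 2 * Real.pi ≤ 8 := by linarith [Real.pi_le_four]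
          calc 2 * Real.pi * |(h : ℝ)| ≤ Z * (Z : ℝ) ^ (36 * r + 6) := by
                apply mul_le_mul (by linarith) hbigh.le (abs_nonneg _) (by positivity)
            _ = (Z : ℝ) ^ (36 * r + 7) := by ring
        have hang2 : ∀ n ∈ A, |2 * Real.pi * ((h : ℝ) / n)| ≤
            (Z : ℝ) ^ (36 * r + 7) / (Z : ℝ) ^ (64 * r) := by
          intro n hn
          refine (hang n hn).trans ?_
          rw [mul_one_div]
          apply div_le_div_of_nonneg_left (by positivity) (by positivity) (hlo n hn)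
        have hw1 : (Z : ℝ) ^ (36 * r + 7) / (Z : ℝ) ^ (64 * r) ≤ 1 := by
          rw [div_le_one (by positivity)]
          exact pow_le_pow_right₀ hz1 (by omega)
        apply re_F_nonneg A p hp0 hp1 h hpT
        · intro n hn
          exact (hang2 n hn).trans hw1
        · have h1 : ∀ n ∈ A, |2 * Real.pi * ((h : ℝ) / n)| ^ 3 ≤
              ((Z : ℝ) ^ (36 * r + 7) / (Z : ℝ) ^ (64 * r)) ^ 2 * (Z : ℝ) ^ (36 * r + 7) *
                (1 / n) := by
            intro n hn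
            have a1 := hang n hn
            have a2 := hang2 n hn
            calc |2 * Real.pi * ((h : ℝ) / n)| ^ 3 =
                |2 * Real.pi * ((h : ℝ) / n)| ^ 2 * |2 * Real.pi * ((h : ℝ) / n)| := by ring
              _ ≤ ((Z : ℝ) ^ (36 * r + 7) / (Z : ℝ) ^ (64 * r)) ^ 2 *
                  ((Z : ℝ) ^ (36 * r + 7) * (1 / n)) := by gcongr
              _ = _ := by ring
          refine (sum_le_sum h1).trans ?_
          rw [← mul_sum]
          change _ * T ≤ 1
          rw [div_pow, div_mul_eq_mul_div, div_mul_eq_mul_div, div_le_one (by positivity)]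
          calc ((Z : ℝ) ^ (36 * r + 7)) ^ 2 * (Z : ℝ) ^ (36 * r + 7) * T
              ≤ ((Z : ℝ) ^ (36 * r + 7)) ^ 2 * (Z : ℝ) ^ (36 * r + 7) * Z := by
                apply mul_le_mul_of_nonneg_left _ (by positivity)
                linarith
            _ = (Z : ℝ) ^ (108 * r + 22) := by ring
            _ ≤ (Z : ℝ) ^ (64 * r * 2) := pow_le_pow_right₀ hz1 (by omega)
            _ = ((Z : ℝ) ^ (64 * r)) ^ 2 := by rw [pow_mul]
    · -- products over the first part
      intro a ha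
      rw [Fintype.mem_piFinset] at ha
      have h1 : (Z ^ 8) ^ (univ : Finset (Fin (5 * r))).card ≤ ∏ i, a i :=
        pow_card_le_prod _ _ _ (fun i _ => (S.ta i _ (ha i)).1.le)
      rw [card_univ, Fintype.card_fin] at h1
      have h2 : ((Z : ℤ) ^ (40 * r)) ≤ ∏ i, ((a i : ℕ) : ℤ) := by
        have h3 : Z ^ (40 * r) ≤ ∏ i, a i := by
          calc Z ^ (40 * r) = (Z ^ 8) ^ (5 * r) := by ring
            _ ≤ _ := h1
        exact_mod_cast h3
      linarith
    · intro j V hV hVr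
      have h0 : (5 * r : ℝ) ≤ V.card := by
        have h1 : rs V ≤ V.card * (1 / (Z : ℝ) ^ 8) := by
          unfold rs
          rw [← nsmul_eq_mul]
          apply sum_le_card_nsmul
          intro t ht
          apply one_div_le_one_div_of_le (by positivity)
          exact_mod_cast (S.tb j t (hV ht)).1.le
        have h2 := S.sb j
        have h3 := S.σZ
        have h4 : σ / 2 ≤ V.card * (1 / (Z : ℝ) ^ 8) := by linarith
        rw [mul_one_div, le_div_iff₀ (by positivity)] at h4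
        linarith
      have h0' : 5 * r ≤ V.card := by exact_mod_cast h0
      have h1 : (Z ^ 8) ^ V.card ≤ ∏ t ∈ V, t :=
        pow_card_le_prod _ _ _ (fun t ht => (S.tb j t (hV ht)).1.le)
      have h2 : ((Z : ℤ) ^ (40 * r)) ≤ ∏ t ∈ V, ((t : ℕ) : ℤ) := by
        have h3 : Z ^ (40 * r) ≤ ∏ t ∈ V, t := by
          calc Z ^ (40 * r) = (Z ^ 8) ^ (5 * r) := by ring
            _ ≤ (Z ^ 8) ^ V.card := Nat.pow_le_pow_right (pow_pos hZ0 _) h0'
            _ ≤ _ := h1
        have h4 : ((Z ^ (40 * r) : ℕ) : ℤ) ≤ ((∏ t ∈ V, t : ℕ) : ℤ) := Nat.cast_le.2 h3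
        rw [Nat.cast_prod, Nat.cast_pow] at h4
        exact h4
      linarith
    · rw [Fintype.card_fin]; omega

end

end Pool.Agent.W11.Hahn
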