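import Mathlib
import Pool.Agent.W11.Hahn.Core1

set_option autoImplicit false

/-! Extraction and pruning lemmas, and the choice of the small part. -/

namespace Pool.Agent.W11.Hahn

open Finset

lemma rs_union_le (X Y : Finset ℕ) : rs (X ∪ Y) ≤ rs X + rs Y := by
  have e1 : rs (X ∪ Y) + rs (X ∩ Y) = rs X + rs Y := sum_union_inter
  have := rs_nonneg (X ∩ Y)
  linarith

lemma extract (X : Finset ℕ) (τ δ : ℝ) (hδ0 : 0 ≤ δ) (hδ : ∀ x ∈ X, (1 : ℝ) / x ≤ δ)
    (hτ0 : 0 ≤ τ) (hτ : τ ≤ rs X) : ∃ Y ⊆ X, τ ≤ rs Y ∧ rs Y ≤ τ + δ := by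
  classical
  have hne : (X.powerset.filter (fun Y => τ ≤ rs Y)).Nonempty :=
    ⟨X, mem_filter.2 ⟨mem_powerset_self X, hτ⟩⟩
  obtain ⟨Y, hY, hmin⟩ := exists_min_image _ (fun Y : Finset ℕ => Y.card) hne
  rw [mem_filter, mem_powerset] at hY
  refine ⟨Y, hY.1, hY.2, ?_⟩
  by_contra hcon
  push Not at hcon
  have hYne : Y.Nonempty := by
    rw [nonempty_iff_ne_empty]
    rintro rfl
    unfold rs at hcon
    rw [sum_empty] at hcon
    linarith
  obtain ⟨y, hy⟩ := hYne
  have h1 : rs (Y.erase y) + 1 / y = rs Y := by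
    unfold rs
    exact sum_erase_add _ _ hy
  have h2 := hδ y (hY.1 hy)
  have h3 := hmin (Y.erase y) (mem_filter.2 ⟨mem_powerset.2 ((erase_subset _ _).trans hY.1),
    by linarith⟩)
  have h4 := card_erase_lt_of_mem hy
  omega

lemma extract_many (X : Finset ℕ) (τ δ : ℝ) (hδ0 : 0 ≤ δ) (hδ : ∀ x ∈ X, (1 : ℝ) / x ≤ δ)
    (hτ0 : 0 ≤ τ) (n : ℕ) (hn : n * (τ + δ) ≤ rs X) :
    ∃ T : ℕ → Finset ℕ, (∀ i < n, T i ⊆ X ∧ τ ≤ rs (T i) ∧ rs (T i) ≤ τ + δ) ∧
      ∀ i < n, ∀ j < n, i ≠ j → Disjoint (T i) (T j) := by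
  classical
  induction n with
  | zero => exact ⟨fun _ => ∅, by simp, by simp⟩
  | succ n ih =>
    push_cast at hn
    have hn' : (n : ℝ) * (τ + δ) ≤ rs X := by nlinarith
    obtain ⟨T, hT1, hT2⟩ := ih hn'
    set U := (range n).biUnion T with hU
    have hUX : U ⊆ X := by
      rw [hU, biUnion_subset]
      intro i hi
      exact (hT1 i (mem_range.1 hi)).1
    have hUrs : rs U ≤ n * (τ + δ) := by
      have h1 : rs U = ∑ i ∈ range n, rs (T i) := by
        unfold rs
        rw [hU, sum_biUnion]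
        intro i hi j hj hij
        exact hT2 i (mem_range.1 hi) j (mem_range.1 hj) hij
      rw [h1]
      calc ∑ i ∈ range n, rs (T i) ≤ ∑ i ∈ range n, (τ + δ) :=
            sum_le_sum fun i hi => (hT1 i (mem_range.1 hi)).2.2
        _ = n * (τ + δ) := by rw [sum_const, card_range, nsmul_eq_mul]
    have hXU : rs (X \ U) + rs U = rs X := sum_sdiff hUX
    obtain ⟨Y, hY1, hY2, hY3⟩ := extract (X \ U) τ δ hδ0
      (fun x hx => hδ x (mem_sdiff.1 hx).1) hτ0 (by nlinarith)
    have hYU : ∀ i < n, Disjoint (T i) Y := by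
      intro i hi
      rw [disjoint_left]
      intro t ht htY
      have := (mem_sdiff.1 (hY1 htY)).2
      apply this
      rw [hU, mem_biUnion]
      exact ⟨i, mem_range.2 hi, ht⟩
    refine ⟨fun i => if i < n then T i else Y, ?_, ?_⟩
    · intro i hi
      by_cases h : i < n
      · simp only [h, if_true]; exact hT1 i h
      · simp only [h, if_false]; exact ⟨hY1.trans sdiff_subset, hY2, hY3⟩
    · intro i hi j hj hij
      by_cases h : i < n
      · by_cases h' : j < n
        · simp only [h, h', if_true]; exact hT2 i h j h' hij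
        · simp only [h, h', if_true, if_false]; exact hYU i h
      · by_cases h' : j < n
        · simp only [h, h', if_true, if_false]; exact (hYU j h').symm
        · omega

lemma prune (A0 W : Finset ℕ) (e0 : ℝ) (he0 : 0 ≤ e0)
    (hW : ∀ n ∈ A0, ∀ q : ℕ, q.Prime → q ∣ n → q ∈ W) :
    ∃ A ⊆ A0, rs A0 - e0 * rs W ≤ rs A ∧ ∀ n ∈ A, ∀ q : ℕ, q.Prime → q ∣ n →
      e0 / q ≤ ∑ n ∈ A.filter (fun n => q ∣ n), (1 : ℝ) / n := by
  classical
  set fam := W.powerset.filter (fun U =>
    rs A0 - e0 * rs U ≤ rs (A0.filter (fun n => ∀ q ∈ U, ¬ q ∣ n))) with hfam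
  have hne : fam.Nonempty := by
    refine ⟨∅, mem_filter.2 ⟨empty_mem_powerset _, ?_⟩⟩
    have e1 : rs (∅ : Finset ℕ) = 0 := by unfold rs; exact sum_empty
    have e2 : A0.filter (fun n => ∀ q ∈ (∅ : Finset ℕ), ¬ q ∣ n) = A0 := by
      apply filter_true_of_mem
      intro n _ q hq
      exact absurd hq (notMem_empty q)
    rw [e1, e2]; linarith
  obtain ⟨U, hU, hmax⟩ := exists_max_image fam (fun U : Finset ℕ => U.card) hne
  rw [hfam, mem_filter, mem_powerset] at hU
  obtain ⟨hUW, hUrs⟩ := hU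
  set A := A0.filter (fun n => ∀ q ∈ U, ¬ q ∣ n) with hA
  refine ⟨A, filter_subset _ _, ?_, ?_⟩
  · have := rs_mono hUW
    nlinarith
  · intro n hn q hq hqn
    by_contra hcon
    push Not at hcon
    have hnA := mem_filter.1 hn
    have hqW : q ∈ W := hW n hnA.1 q hq hqn
    have hqU : q ∉ U := fun h => hnA.2 q h hqn
    have h1 : A0.filter (fun n => ∀ q' ∈ insert q U, ¬ q' ∣ n) = A.filter (fun n => ¬ q ∣ n) := by
      ext m
      rw [mem_filter, mem_filter, hA, mem_filter]
      constructor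
      · rintro ⟨h2, h3⟩
        exact ⟨⟨h2, fun q' hq' => h3 q' (mem_insert_of_mem hq')⟩, h3 q (mem_insert_self _ _)⟩
      · rintro ⟨⟨h2, h3⟩, h4⟩
        refine ⟨h2, fun q' hq' => ?_⟩
        rcases mem_insert.1 hq' with h | h
        · rw [h]; exact h4
        · exact h3 q' h
    have h2 : ∑ n ∈ A.filter (fun n => q ∣ n), (1 : ℝ) / n + rs (A.filter (fun n => ¬ q ∣ n)) =
        rs A := by
      unfold rs
      exact sum_filter_add_sum_filter_not _ _ _
    have h3 : rs (insert q U) = 1 / q + rs U := by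
      unfold rs
      exact sum_insert hqU
    have h4 : insert q U ∈ fam := by
      rw [hfam, mem_filter, mem_powerset]
      refine ⟨insert_subset hqW hUW, ?_⟩
      rw [h1, h3]
      have h5 : e0 / (q : ℝ) = e0 * (1 / q) := by ring
      rw [h5] at hcon
      nlinarith
    have h5 : (insert q U).card ≤ U.card := hmax _ h4
    rw [card_insert_of_notMem hqU] at h5
    omega

lemma rs_div_mul {M p : ℕ} (hM : 0 < M) (hp : p.Prime) (hpM : ¬ p ∣ M) :
    rs (M * p).divisors = (1 + 1 / p) * rs M.divisors := by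
  classical
  have h1 : (M * p).divisors = M.divisors ∪ M.divisors.image (fun m => p * m) := by
    ext d
    rw [mem_union, mem_image, Nat.mem_divisors, Nat.mem_divisors]
    constructor
    · rintro ⟨h2, _⟩
      by_cases hpd : p ∣ d
      · right
        obtain ⟨d', rfl⟩ := hpd
        refine ⟨d', ?_, rfl⟩
        rw [Nat.mem_divisors]
        rw [mul_comm M p] at h2
        exact ⟨Nat.dvd_of_mul_dvd_mul_left hp.pos h2, hM.ne'⟩
      · left
        refine ⟨?_, hM.ne'⟩
        have : d.Coprime p := ((hp.coprime_iff_not_dvd).2 hpd).symm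
        exact this.dvd_of_dvd_mul_right h2
    · rintro (⟨h2, _⟩ | ⟨d', h2, rfl⟩)
      · exact ⟨h2.trans (dvd_mul_right _ _), (Nat.mul_pos hM hp.pos).ne'⟩
      · rw [Nat.mem_divisors] at h2
        refine ⟨?_, (Nat.mul_pos hM hp.pos).ne'⟩
        rw [mul_comm M p]
        exact mul_dvd_mul_left p h2.1
  have hdisj : Disjoint M.divisors (M.divisors.image (fun m => p * m)) := by
    rw [disjoint_left]
    intro d hd hd2
    rw [mem_image] at hd2
    obtain ⟨d', _, rfl⟩ := hd2
    rw [Nat.mem_divisors] at hd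
    exact hpM ((dvd_mul_right p d').trans hd.1)
  have h2 : rs (M.divisors.image (fun m => p * m)) = 1 / p * rs M.divisors := by
    unfold rs
    rw [sum_image, mul_sum]
    · apply sum_congr rfl
      intro m _
      push_cast
      rw [one_div_mul_one_div]
    · intro x _ y _ hxy
      exact Nat.eq_of_mul_eq_mul_left hp.pos hxy
  have h3 : rs (M * p).divisors = rs M.divisors + rs (M.divisors.image (fun m => p * m)) := by
    rw [h1]; unfold rs; exact sum_union hdisj
  rw [h3, h2]; ring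

lemma exp_half_le {x : ℝ} (h0 : 0 ≤ x) (h1 : x ≤ 1) : Real.exp (x / 2) ≤ 1 + x := by
  have h2 := Real.add_one_le_exp (-(x / 2))
  have h3 : 0 < 1 - x / 2 := by linarith
  have h4 : Real.exp (x / 2) * Real.exp (-(x / 2)) = 1 := by
    rw [← Real.exp_add]; simp
  have h5 := Real.exp_pos (x / 2)
  have h6 := Real.exp_pos (-(x / 2))
  by_contra hcon
  push Not at hcon
  have h7 : (1 + x) * Real.exp (-(x / 2)) < Real.exp (x / 2) * Real.exp (-(x / 2)) :=
    mul_lt_mul_of_pos_right hcon h6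
  have h8 : (1 + x) * (1 - x / 2) ≤ (1 + x) * Real.exp (-(x / 2)) :=
    mul_le_mul_of_nonneg_left (by linarith) (by linarith)
  nlinarith

/-- the product of the primes below `N` -/
def MM (N : ℕ) : ℕ := ∏ p ∈ (range N).filter Nat.Prime, p

lemma MM_pos (N : ℕ) : 0 < MM N := prod_pos fun p hp => (mem_filter.1 hp).2.pos

lemma MM_sqf (N : ℕ) : Squarefree (MM N) := by
  apply sqf_prod
  · intro p hp; exact (mem_filter.1 hp).2
  · intro _ _ _ _ h; exact h

lemma dvd_MM {N p : ℕ} (hp : p.Prime) : p ∣ MM N ↔ p < N := by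
  unfold MM
  rw [hp.prime.dvd_finsetProd_iff]
  constructor
  · rintro ⟨q, hq, hpq⟩
    rw [mem_filter, mem_range] at hq
    rw [(Nat.prime_dvd_prime_iff_eq hp hq.2).1 hpq]
    exact hq.1
  · intro h
    exact ⟨p, mem_filter.2 ⟨mem_range.2 h, hp⟩, dvd_rfl⟩

lemma MM_succ_prime {N : ℕ} (hN : N.Prime) : MM (N + 1) = MM N * N := by
  unfold MM
  rw [range_add_one, filter_insert, if_pos hN, prod_insert, mul_comm]
  intro h
  rw [mem_filter, mem_range] at h
  omega

lemma MM_succ_not_prime {N : ℕ} (hN : ¬ N.Prime) : MM (N + 1) = MM N := by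
  unfold MM
  rw [range_add_one, filter_insert, if_neg hN]

lemma rs_MM_succ_le (N : ℕ) : rs (MM (N + 1)).divisors ≤ 2 * rs (MM N).divisors := by
  have h0 := rs_nonneg (MM N).divisors
  by_cases hN : N.Prime
  · rw [MM_succ_prime hN, rs_div_mul (MM_pos N) hN]
    · have h1 : (1 : ℝ) / N ≤ 1 := by
        rw [div_le_one (by exact_mod_cast hN.pos)]
        exact_mod_cast hN.one_lt.le
      nlinarith
    · rw [dvd_MM hN]; omega
  · rw [MM_succ_not_prime hN]; linarith

lemma exp_le_rs_MM (N : ℕ) :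
    Real.exp ((∑ p ∈ (range N).filter Nat.Prime, (1 : ℝ) / p) / 2) ≤ rs (MM N).divisors := by
  induction N with
  | zero => simp [MM, rs]
  | succ N ih =>
    by_cases hN : N.Prime
    · rw [MM_succ_prime hN, rs_div_mul (MM_pos N) hN (by rw [dvd_MM hN]; omega)]
      rw [range_add_one, filter_insert, if_pos hN, sum_insert, add_div, Real.exp_add]
      · have h1 : (1 : ℝ) / N ≤ 1 := by
          rw [div_le_one (by exact_mod_cast hN.pos)]
          exact_mod_cast hN.one_lt.le
        exact mul_le_mul (exp_half_le (by positivity) h1) ih (Real.exp_pos _).le (by positivity)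
      · intro h
        rw [mem_filter, mem_range] at h
        omega
    · rw [MM_succ_not_prime hN, range_add_one, filter_insert, if_neg hN]
      exact ih

lemma exists_MM_ge (L : ℝ) : ∃ N, L ≤ rs (MM N).divisors := by
  have h1 := not_summable_one_div_on_primes
  have h2 : ∀ n : ℕ, 0 ≤ Set.indicator {p : ℕ | p.Prime} (fun n : ℕ => (1 : ℝ) / n) n := by
    intro n
    apply Set.indicator_nonneg
    intro _ _; positivity
  rw [not_summable_iff_tendsto_nat_atTop_of_nonneg h2] at h1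
  obtain ⟨N, hN⟩ := (h1.eventually_ge_atTop L).exists
  refine ⟨N, hN.trans ?_⟩
  unfold rs
  have h3 : ∑ i ∈ range N, Set.indicator {p : ℕ | p.Prime} (fun n : ℕ => (1 : ℝ) / n) i =
      ∑ p ∈ (range N).filter Nat.Prime, (1 : ℝ) / p := by
    rw [sum_filter]
    apply sum_congr rfl
    intro i _
    by_cases hi : i.Prime
    · rw [Set.indicator_of_mem (show i ∈ {p : ℕ | p.Prime} from hi), if_pos hi]
    · rw [Set.indicator_of_notMem (show i ∉ {p : ℕ | p.Prime} from hi), if_neg hi]
  rw [h3]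
  apply sum_le_sum_of_subset_of_nonneg
  · intro p hp
    rw [mem_filter, mem_range] at hp
    rw [Nat.mem_divisors]
    exact ⟨(dvd_MM hp.2).2 hp.1, (MM_pos N).ne'⟩
  · intro _ _ _; positivity

lemma primeFactors_MM (N : ℕ) : (MM N).primeFactors = (range N).filter Nat.Prime := by
  ext p
  rw [Nat.mem_primeFactors, mem_filter, mem_range]
  constructor
  · rintro ⟨h1, h2, _⟩
    exact ⟨(dvd_MM h1).1 h2, h1⟩
  · rintro ⟨h1, h2⟩
    exact ⟨h2, (dvd_MM h2).2 h1, (MM_pos N).ne'⟩

lemma exists_M0 (L : ℝ) (hL : 1 ≤ L) : ∃ M0 : ℕ, 0 < M0 ∧ Squarefree M0 ∧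
    L ≤ rs M0.divisors ∧ rs M0.divisors ≤ 2 * L ∧
    rs M0.primeFactors ≤ 2 * Real.log (2 * L) := by
  classical
  have hex := exists_MM_ge L
  set N := Nat.find hex with hN
  have h1 : L ≤ rs (MM N).divisors := Nat.find_spec hex
  have h2 : rs (MM N).divisors ≤ 2 * L := by
    rcases Nat.eq_zero_or_pos N with h | h
    · rw [h]
      have : rs (MM 0).divisors = 1 := by simp [MM, rs]
      rw [this]; linarith
    · obtain ⟨N', hN'⟩ : ∃ N', N = N' + 1 := ⟨N - 1, by omega⟩
      have h3 : ¬ L ≤ rs (MM N').divisors := Nat.find_min hex (by omega)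
      push Not at h3
      have h4 := rs_MM_succ_le N'
      rw [hN']; linarith
  refine ⟨MM N, MM_pos N, MM_sqf N, h1, h2, ?_⟩
  have h3 := exp_le_rs_MM N
  have h4 : (∑ p ∈ (range N).filter Nat.Prime, (1 : ℝ) / p) / 2 ≤ Real.log (2 * L) := by
    rw [Real.le_log_iff_exp_le (by linarith)]
    exact h3.trans h2
  rw [primeFactors_MM]
  unfold rs
  linarith

end Pool.Agent.W11.Hahn
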