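import Mathlib
import Pool.Agent.W11.Hahn.Core2
import Pool.Agent.W11.Hahn.Core3
import Pool.Agent.W11.Hahn.Cheb

set_option autoImplicit false

/-! Choice of the parameters and the colouring theorem. -/

namespace Pool.Agent.W11.Hahn

open Finset

lemma choose_r (c0 : ℝ) (hc0 : 0 < c0) (k : ℝ) (hk : 1 ≤ k) : ∃ r : ℕ, 3 ≤ r ∧
    (3 / 4) ^ r * ((16 * r / c0) * (12 * k)) <
      1 / (40 * (2 * (4 * k + 128 * (r : ℝ) ^ 2 / c0) + 1)) := by
  set C : ℝ := (16 / c0) * (12 * k) * (40 * (2 * (4 * k + 128 / c0) + 1)) with hC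
  have hCpos : 0 < C := by positivity
  have h1 := tendsto_pow_const_mul_const_pow_of_lt_one 3 (r := (3 / 4 : ℝ)) (by norm_num)
    (by norm_num)
  have h2 : ∀ᶠ n : ℕ in Filter.atTop, (n : ℝ) ^ 3 * (3 / 4 : ℝ) ^ n < 1 / C :=
    h1.eventually_lt_const (by positivity)
  obtain ⟨r, hr1, hr2⟩ := (h2.and (Filter.eventually_ge_atTop 3)).exists
  refine ⟨r, hr2, ?_⟩
  have hr : (1 : ℝ) ≤ r := by
    have : 1 ≤ r := by omega
    exact_mod_cast this
  rw [lt_div_iff₀ (by positivity)]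
  rw [lt_div_iff₀ hCpos] at hr1
  have h3 : 2 * (4 * k + 128 * (r : ℝ) ^ 2 / c0) + 1 ≤
      (2 * (4 * k + 128 / c0) + 1) * (r : ℝ) ^ 2 := by
    have h4 : (1 : ℝ) ≤ (r : ℝ) ^ 2 := one_le_pow₀ hr
    have h5 : 128 * (r : ℝ) ^ 2 / c0 = 128 / c0 * (r : ℝ) ^ 2 := by ring
    rw [h5]
    nlinarith
  calc (3 / 4) ^ r * ((16 * r / c0) * (12 * k)) *
        (40 * (2 * (4 * k + 128 * (r : ℝ) ^ 2 / c0) + 1))
      ≤ (3 / 4) ^ r * ((16 * r / c0) * (12 * k)) *
        (40 * ((2 * (4 * k + 128 / c0) + 1) * (r : ℝ) ^ 2)) := by gcongr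
    _ = (r : ℝ) ^ 3 * (3 / 4) ^ r * C := by rw [hC]; ring
    _ < 1 := hr1

lemma pow_add_le {σ δ : ℝ} (hσ : 0 < σ) (hδ : 0 ≤ δ) (n : ℕ) (h : n * δ ≤ σ) :
    (σ + δ) ^ n ≤ 3 * σ ^ n := by
  have h1 : σ + δ ≤ σ * Real.exp (δ / σ) := by
    have h2 := Real.add_one_le_exp (δ / σ)
    calc σ + δ = σ * (δ / σ + 1) := by field_simp; ring
      _ ≤ _ := mul_le_mul_of_nonneg_left h2 hσ.le
  calc (σ + δ) ^ n ≤ (σ * Real.exp (δ / σ)) ^ n := pow_le_pow_left₀ (by positivity) h1 n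
    _ = Real.exp (n * (δ / σ)) * σ ^ n := by rw [mul_pow, ← Real.exp_nat_mul]; ring
    _ ≤ 3 * σ ^ n := by
        apply mul_le_mul_of_nonneg_right _ (by positivity)
        have h3 : (n : ℝ) * (δ / σ) ≤ 1 := by
          rw [← mul_div_assoc, div_le_one hσ]; exact h
        calc Real.exp (n * (δ / σ)) ≤ Real.exp 1 := Real.exp_le_exp.2 h3
          _ ≤ 3 := Real.exp_one_lt_three.le

theorem colouring (k N : ℕ) (hk : 0 < k) : ∃ X : Finset ℕ, (∀ n ∈ X, N < n) ∧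
    ∀ c : ℕ → Fin k, ∃ i, ∃ B ⊆ X, (∀ n ∈ B, c n = i) ∧ ∑ n ∈ B, (1 : ℝ) / n = 1 := by
  classical
  obtain ⟨c0, hc0, hc1, Z0, hZ0⟩ := prime_recip_block
  have hk1 : (1 : ℝ) ≤ k := by exact_mod_cast hk
  obtain ⟨r, hr3, hr⟩ := choose_r c0 hc0 k hk1
  have hrr : (3 : ℝ) ≤ r := by exact_mod_cast hr3
  have hr0 : (0 : ℝ) < r := by linarith
  set σ : ℝ := c0 / (16 * r) with hσ
  have hσ0 : 0 < σ := by positivity
  have hσ1 : σ ≤ 1 := by
    rw [hσ, div_le_one (by positivity)]; linarith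
  have hσinv : 1 / σ = 16 * r / c0 := by rw [hσ]; field_simp
  have hgσ : (8 * r : ℝ) * σ = c0 / 2 := by rw [hσ]; field_simp; norm_num
  set L : ℝ := 2 * k / σ ^ (8 * r) with hL
  have hσpow : σ ^ (8 * r) ≤ 1 := pow_le_one₀ hσ0.le hσ1
  have hL1 : 1 ≤ L := by
    rw [hL, le_div_iff₀ (by positivity)]; linarith
  have hlog : Real.log (2 * L) ≤ 4 * k + 128 * (r : ℝ) ^ 2 / c0 := by
    have h1 : 2 * L = 4 * k * (1 / σ) ^ (8 * r) := by
      rw [hL, one_div, inv_pow]; ring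
    rw [h1, Real.log_mul (by positivity) (by positivity), Real.log_pow, hσinv]
    have h2 : Real.log (4 * k) ≤ 4 * k := by
      have := Real.log_le_sub_one_of_pos (show (0 : ℝ) < 4 * k by positivity)
      linarith
    have h3 : Real.log (16 * r / c0) ≤ 16 * r / c0 := by
      have := Real.log_le_sub_one_of_pos (show (0 : ℝ) < 16 * r / c0 by positivity)
      linarith
    have h4 : ((8 * r : ℕ) : ℝ) * Real.log (16 * r / c0) ≤ 128 * (r : ℝ) ^ 2 / c0 := by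
      calc ((8 * r : ℕ) : ℝ) * Real.log (16 * r / c0) ≤ ((8 * r : ℕ) : ℝ) * (16 * r / c0) := by
            gcongr
        _ = 128 * (r : ℝ) ^ 2 / c0 := by push_cast; ring
    linarith
  obtain ⟨M0, hM0pos, hM0sq, hΛ1, hΛ2, hM0p⟩ := exists_M0 L hL1
  set SS : ℝ := 2 * (4 * k + 128 * (r : ℝ) ^ 2 / c0) + 1 with hSS
  have hSSpos : 0 < SS := by positivity
  set e0 : ℝ := 1 / (20 * SS) with he0
  have he0pos : 0 < e0 := by positivity
  -- choice of `Z`
  obtain ⟨Z, hZ⟩ : ∃ Z : ℕ, Z0 ≤ Z ∧ 22 ≤ Z ∧ M0 ≤ Z ∧ N < Z ∧ 2 / e0 ≤ Z ∧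
      10 * r / σ ≤ Z := by
    obtain ⟨z1, hz1⟩ := exists_nat_ge (2 / e0)
    obtain ⟨z2, hz2⟩ := exists_nat_ge (10 * r / σ)
    refine ⟨Z0 + 22 + M0 + (N + 1) + z1 + z2, by omega, by omega, by omega, by omega, ?_, ?_⟩
    · refine hz1.trans ?_
      exact_mod_cast (by omega : z1 ≤ Z0 + 22 + M0 + (N + 1) + z1 + z2)
    · refine hz2.trans ?_
      exact_mod_cast (by omega : z2 ≤ Z0 + 22 + M0 + (N + 1) + z1 + z2)
  obtain ⟨hZ1, hZ22, hZM0, hZN, hZe0, hZσ⟩ := hZ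
  have hZpos : 0 < Z := by omega
  have hz1 : (1 : ℝ) ≤ Z := by exact_mod_cast hZpos
  have hZ8 : (Z : ℝ) ≤ (Z : ℝ) ^ 8 := by
    calc (Z : ℝ) = (Z : ℝ) ^ 1 := (pow_one _).symm
      _ ≤ (Z : ℝ) ^ 8 := pow_le_pow_right₀ hz1 (by norm_num)
  have hσZ : 10 * (r : ℝ) ≤ σ * (Z : ℝ) ^ 8 := by
    rw [div_le_iff₀ hσ0] at hZσ
    nlinarith
  set δ : ℝ := 1 / (Z : ℝ) ^ 8 with hδ
  have hδ0 : 0 ≤ δ := by positivity
  have h8δ : (8 * r : ℝ) * δ ≤ σ := by
    rw [hδ, mul_one_div, div_le_iff₀ (by positivity)]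
    linarith
  set X0 := (Finset.Ioc (Z ^ 8) (Z ^ 9)).filter Nat.Prime with hX0
  have hX0rs : c0 ≤ rs X0 := hZ0 Z hZ1
  have hX0δ : ∀ x ∈ X0, (1 : ℝ) / x ≤ δ := by
    intro x hx
    rw [hX0, mem_filter, mem_Ioc] at hx
    apply one_div_le_one_div_of_le (by positivity)
    exact_mod_cast hx.1.1.le
  have htot : ((8 * r : ℕ) : ℝ) * (σ + δ) ≤ c0 := by
    push_cast
    have h1 : σ ≤ c0 / 2 := by
      rw [hσ, div_le_div_iff₀ (by positivity) (by positivity)]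
      nlinarith
    nlinarith
  obtain ⟨T, hT1, hT2⟩ := extract_many X0 σ δ hδ0 hX0δ hσ0.le (8 * r) (htot.trans hX0rs)
  set Ta : Fin (5 * r) → Finset ℕ := fun i => T i.val with hTa
  set Tb : Fin (3 * r) → Finset ℕ := fun j => T (5 * r + j.val) with hTb
  have ia : ∀ i : Fin (5 * r), i.val < 8 * r := fun i => by have := i.2; omega
  have ib : ∀ j : Fin (3 * r), 5 * r + j.val < 8 * r := fun i => by have := i.2; omega
  have hX0mem : ∀ t ∈ X0, t.Prime ∧ ¬ t ∣ M0 ∧ Z ^ 8 < t ∧ t ≤ Z ^ 9 := by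
    intro t ht
    rw [hX0, mem_filter, mem_Ioc] at ht
    refine ⟨ht.2, ?_, ht.1.1, ht.1.2⟩
    intro hd
    have h1 := Nat.le_of_dvd hM0pos hd
    have h2 : Z ^ 1 ≤ Z ^ 8 := Nat.pow_le_pow_right hZpos (by norm_num)
    rw [pow_one] at h2
    omega
  have hTmem : ∀ i < 8 * r, ∀ t ∈ T i, t.Prime ∧ ¬ t ∣ M0 ∧ Z ^ 8 < t ∧ t ≤ Z ^ 9 :=
    fun i hi t ht => hX0mem t ((hT1 i hi).1 ht)
  have hdis : ∀ i < 8 * r, ∀ j < 8 * r, i ≠ j → ∀ t ∈ T i, t ∉ T j :=
    fun i hi j hj hij t ht => disjoint_left.1 (hT2 i hi j hj hij) ht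
  have S : Setup r Z M0 Ta Tb σ := by
    refine ⟨⟨hM0pos, ?_, ?_, ?_, ?_, ?_⟩, hr3, hZ22, hZM0, hM0sq, ?_, ?_, hσ0, hσ1, ?_, ?_, hσZ⟩
    · intro i t ht
      exact ⟨(hTmem _ (ia i) t ht).1, (hTmem _ (ia i) t ht).2.1⟩
    · intro i t ht
      exact ⟨(hTmem _ (ib i) t ht).1, (hTmem _ (ib i) t ht).2.1⟩
    · intro i i' hii t ht
      exact hdis _ (ia i) _ (ia i') (fun h => hii (Fin.ext h)) t ht
    · intro i i' hii t ht
      exact hdis _ (ib i) _ (ib i') (fun h => hii (Fin.ext (by omega))) t ht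
    · intro i j t ht
      exact hdis _ (ia i) _ (ib j) (by have := i.2; omega) t ht
    · intro i t ht
      exact (hTmem _ (ia i) t ht).2.2
    · intro i t ht
      exact (hTmem _ (ib i) t ht).2.2
    · intro i; exact (hT1 _ (ia i)).2.1
    · intro i; exact (hT1 _ (ib i)).2.1
  -- total mass
  have hHlo : 2 * (k : ℝ) ≤ HH M0 Ta Tb := by
    unfold HH
    have h1 : σ ^ (5 * r) ≤ ∏ i, rs (Ta i) := by
      calc σ ^ (5 * r) = ∏ _i : Fin (5 * r), σ := by rw [prod_const, card_univ, Fintype.card_fin]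
        _ ≤ _ := prod_le_prod (fun _ _ => hσ0.le) (fun i _ => S.sa i)
    have h2 : σ ^ (3 * r) ≤ ∏ i, rs (Tb i) := by
      calc σ ^ (3 * r) = ∏ _i : Fin (3 * r), σ := by rw [prod_const, card_univ, Fintype.card_fin]
        _ ≤ _ := prod_le_prod (fun _ _ => hσ0.le) (fun i _ => S.sb i)
    calc 2 * (k : ℝ) = L * σ ^ (5 * r) * σ ^ (3 * r) := by
          rw [mul_assoc, ← pow_add, show 5 * r + 3 * r = 8 * r by ring, hL]
          field_simp
      _ ≤ rs M0.divisors * (∏ i, rs (Ta i)) * ∏ j, rs (Tb j) := by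
          have h3 := rs_nonneg M0.divisors
          have n1 : 0 ≤ ∏ i, rs (Ta i) := prod_nonneg fun _ _ => rs_nonneg _
          have n3 : 0 ≤ rs M0.divisors * ∏ i, rs (Ta i) := mul_nonneg h3 n1
          gcongr
  have hHup : HH M0 Ta Tb ≤ 12 * k := by
    unfold HH
    have h1 : ∏ i, rs (Ta i) ≤ (σ + δ) ^ (5 * r) := by
      calc ∏ i, rs (Ta i) ≤ ∏ _i : Fin (5 * r), (σ + δ) :=
            prod_le_prod (fun _ _ => rs_nonneg _) (fun i _ => (hT1 _ (ia i)).2.2)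
        _ = _ := by rw [prod_const, card_univ, Fintype.card_fin]
    have h2 : ∏ i, rs (Tb i) ≤ (σ + δ) ^ (3 * r) := by
      calc ∏ i, rs (Tb i) ≤ ∏ _i : Fin (3 * r), (σ + δ) :=
            prod_le_prod (fun _ _ => rs_nonneg _) (fun i _ => (hT1 _ (ib i)).2.2)
        _ = _ := by rw [prod_const, card_univ, Fintype.card_fin]
    have n2 : 0 ≤ ∏ i, rs (Tb i) := prod_nonneg fun _ _ => rs_nonneg _
    have h3 : (σ + δ) ^ (8 * r) ≤ 3 * σ ^ (8 * r) :=
      pow_add_le hσ0 hδ0 (8 * r) (by push_cast; exact h8δ)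
    calc rs M0.divisors * (∏ i, rs (Ta i)) * ∏ j, rs (Tb j)
        ≤ (2 * L) * (σ + δ) ^ (5 * r) * (σ + δ) ^ (3 * r) := by
          have h5 := rs_nonneg M0.divisors
          have n1 : 0 ≤ ∏ i, rs (Ta i) := prod_nonneg fun _ _ => rs_nonneg _
          gcongr
      _ = (2 * L) * (σ + δ) ^ (8 * r) := by
          rw [mul_assoc, ← pow_add, show 5 * r + 3 * r = 8 * r by ring]
      _ ≤ (2 * L) * (3 * σ ^ (8 * r)) := by gcongr
      _ = 12 * k := by rw [hL]; field_simp; norm_num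
  refine ⟨NN M0 Ta Tb, ?_, ?_⟩
  · intro n hn
    have h1 := NN_lower S hn
    have h2 : Z ^ 1 ≤ Z ^ (64 * r) := Nat.pow_le_pow_right hZpos (by omega)
    rw [pow_one] at h2
    omega
  · intro c
    -- a class with large mass
    obtain ⟨i, hi⟩ : ∃ i : Fin k, 2 ≤ rs ((NN M0 Ta Tb).filter (fun n => c n = i)) := by
      by_contra hcon
      push Not at hcon
      have h1 : ∑ i : Fin k, rs ((NN M0 Ta Tb).filter (fun n => c n = i)) = rs (NN M0 Ta Tb) := by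
        unfold rs
        exact sum_fiberwise _ _ _
      have h2 : ∑ i : Fin k, rs ((NN M0 Ta Tb).filter (fun n => c n = i)) < ∑ _i : Fin k, (2 : ℝ) := by
        apply sum_lt_sum_of_nonempty
        · exact ⟨⟨0, hk⟩, mem_univ _⟩
        · intro i _; exact hcon i
      rw [h1, rs_NN S, sum_const, card_univ, Fintype.card_fin, nsmul_eq_mul] at h2
      linarith
    set A00 := (NN M0 Ta Tb).filter (fun n => c n = i) with hA00
    have hA00N : A00 ⊆ NN M0 Ta Tb := filter_subset _ _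
    obtain ⟨A0, hA0sub, hA0lo, hA0up⟩ := extract A00 (18 / 10) (1 / 10) (by norm_num)
      (by
        intro x hx
        have h1 := NN_lower S (hA00N hx)
        have h2 : Z ^ 1 ≤ Z ^ (64 * r) := Nat.pow_le_pow_right hZpos (by omega)
        rw [pow_one] at h2
        apply one_div_le_one_div_of_le (by norm_num)
        exact_mod_cast (by omega : 10 ≤ x)) (by norm_num) (by linarith)
    set W := M0.primeFactors ∪ (range (8 * r)).biUnion T with hW
    have hWrs : rs W ≤ SS := by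
      have h1 : rs ((range (8 * r)).biUnion T) ≤ 1 := by
        have h2 : rs ((range (8 * r)).biUnion T) = ∑ i ∈ range (8 * r), rs (T i) := by
          unfold rs
          rw [sum_biUnion]
          intro i hi j hj hij
          exact hT2 i (mem_range.1 hi) j (mem_range.1 hj) hij
        rw [h2]
        calc ∑ i ∈ range (8 * r), rs (T i) ≤ ∑ i ∈ range (8 * r), (σ + δ) :=
              sum_le_sum fun i hi => (hT1 i (mem_range.1 hi)).2.2
          _ = ((8 * r : ℕ) : ℝ) * (σ + δ) := by rw [sum_const, card_range, nsmul_eq_mul]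
          _ ≤ 1 := htot.trans hc1
      have h2 := rs_union_le M0.primeFactors ((range (8 * r)).biUnion T)
      rw [hSS]
      linarith
    obtain ⟨A, hAsub, hArs, hAq⟩ := prune A0 W e0 he0pos.le (by
      intro n hn q hq hqn
      rw [hW, mem_union, mem_biUnion]
      rcases NN_prime S (hA00N (hA0sub hn)) hq hqn with h | ⟨i, h⟩ | ⟨j, h⟩
      · left
        exact Nat.mem_primeFactors.2 ⟨hq, h, hM0pos.ne'⟩
      · right; exact ⟨i.val, mem_range.2 (ia i), h⟩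
      · right; exact ⟨5 * r + j.val, mem_range.2 (ib j), h⟩)
    have heW : e0 * rs W ≤ 1 / 20 := by
      calc e0 * rs W ≤ e0 * SS := by gcongr
        _ = 1 / 20 := by rw [he0]; field_simp
    have hA1 : 17 / 10 ≤ rs A := by linarith
    have hA2 : rs A < 195 / 100 := by
      have := rs_mono hAsub
      linarith
    have hsmall : (3 / 4) ^ r * (1 / σ * HH M0 Ta Tb) < e0 / 2 := by
      calc (3 / 4) ^ r * (1 / σ * HH M0 Ta Tb) ≤ (3 / 4) ^ r * (1 / σ * (12 * k)) := by gcongr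
        _ = (3 / 4) ^ r * ((16 * r / c0) * (12 * k)) := by rw [hσinv]
        _ < 1 / (40 * SS) := hr
        _ = e0 / 2 := by rw [he0]; field_simp; norm_num
    obtain ⟨B, hBA, hB1⟩ := core S e0 he0pos (by
      rw [div_le_iff₀ he0pos] at hZe0; linarith) hsmall A
      (hAsub.trans (hA0sub.trans hA00N)) hA1 hA2 hAq
    refine ⟨i, B, hBA.trans (hAsub.trans (hA0sub.trans hA00N)), ?_, hB1⟩
    intro n hn
    exact (mem_filter.1 (hA0sub (hAsub (hBA hn)))).2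

end Pool.Agent.W11.Hahn
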