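import Mathlib
import Pool.Agent.W11.Hahn.Core4

set_option autoImplicit false

/-! From the colouring theorem to all positive rationals. -/

namespace Pool.Agent.W11.Hahn

open Finset

/-- colour `i` works for the scaling factor `D` -/
def Works {k : ℕ} (c : ℕ → Fin k) (D : ℕ) (i : Fin k) : Prop :=
  ∀ N, ∃ B : Finset ℕ, (∀ n ∈ B, N < n ∧ c (D * n) = i) ∧ ∑ n ∈ B, (1 : ℝ) / n = 1

lemma exists_works {k : ℕ} (hk : 0 < k) (c : ℕ → Fin k) (D : ℕ) : ∃ i, Works c D i := by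
  by_contra hcon
  push Not at hcon
  unfold Works at hcon
  push Not at hcon
  choose N hN using hcon
  obtain ⟨X, hX1, hX2⟩ := colouring k (univ.sup N) hk
  obtain ⟨i, B, hBX, hBc, hB1⟩ := hX2 (fun n => c (D * n))
  refine hN i B (fun n hn => ⟨?_, hBc n hn⟩) hB1
  exact lt_of_le_of_lt (le_sup (mem_univ i)) (hX1 n (hBX hn))

lemma exists_works_inf {k : ℕ} (hk : 0 < k) (c : ℕ → Fin k) :
    ∃ i, ∀ J : ℕ, ∃ j, J ≤ j ∧ Works c j.factorial i := by
  by_contra hcon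
  push Not at hcon
  choose J hJ using hcon
  obtain ⟨i, hi⟩ := exists_works hk c (univ.sup J).factorial
  exact hJ i _ (le_sup (mem_univ i)) hi

lemma works_mul {k : ℕ} {c : ℕ → Fin k} {D : ℕ} {i : Fin k} (h : Works c D i) (M : ℕ) :
    ∃ B : Finset ℕ, (∀ n ∈ B, 0 < n ∧ c (D * n) = i) ∧ ∑ n ∈ B, (1 : ℝ) / n = M := by
  induction M with
  | zero => exact ⟨∅, by simp, by simp⟩
  | succ M ih =>
    obtain ⟨B, hB1, hB2⟩ := ih
    obtain ⟨B', hB1', hB2'⟩ := h (B.sup id)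
    have hdisj : Disjoint B B' := by
      rw [disjoint_left]
      intro n hn hn'
      have h1 := (hB1' n hn').1
      have h2 : n ≤ B.sup id := le_sup (f := id) hn
      omega
    refine ⟨B ∪ B', ?_, ?_⟩
    · intro n hn
      rcases mem_union.1 hn with h1 | h1
      · exact hB1 n h1
      · exact ⟨lt_of_le_of_lt (Nat.zero_le _) (hB1' n h1).1, (hB1' n h1).2⟩
    · rw [sum_union hdisj, hB2, hB2']
      push_cast; ring

theorem one_colour {k : ℕ} (hk : 0 < k) (c : ℕ → Fin k) :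
    ∃ i, ∀ q : ℚ, 0 < q → ∃ F : Finset ℕ, F.Nonempty ∧ (∀ n ∈ F, 0 < n ∧ c n = i) ∧
      ∑ n ∈ F, (1 : ℚ) / n = q := by
  classical
  obtain ⟨i, hi⟩ := exists_works_inf hk c
  refine ⟨i, fun q hq => ?_⟩
  obtain ⟨j, hj, hw⟩ := hi q.den
  set D := j.factorial with hD
  have hDpos : 0 < D := Nat.factorial_pos j
  have hdvd : q.den ∣ D := Nat.dvd_factorial q.pos hj
  obtain ⟨e, he⟩ := hdvd
  have hnum : 0 < q.num := Rat.num_pos.2 hq
  obtain ⟨a, ha⟩ : ∃ a : ℕ, q.num = a := ⟨q.num.toNat, (Int.toNat_of_nonneg hnum.le).symm⟩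
  obtain ⟨B, hB1, hB2⟩ := works_mul hw (a * e)
  have hD0 : (D : ℚ) ≠ 0 := by exact_mod_cast hDpos.ne'
  have hB2' : ∑ n ∈ B, (1 : ℚ) / n = ((a * e : ℕ) : ℚ) := by
    have h1 : ((∑ n ∈ B, (1 : ℚ) / n : ℚ) : ℝ) = (((a * e : ℕ) : ℚ) : ℝ) := by
      push_cast
      rw [hB2]; push_cast; rfl
    exact_mod_cast h1
  have hval : ∑ n ∈ B.image (fun n => D * n), (1 : ℚ) / n = q := by
    rw [sum_image]
    · have h1 : ∀ n ∈ B, (1 : ℚ) / ((D * n : ℕ) : ℚ) = (1 / D) * (1 / n) := by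
        intro n _
        push_cast
        rw [one_div_mul_one_div]
      rw [sum_congr rfl h1, ← mul_sum, hB2', he]
      have h2 : q = (q.num : ℚ) / (q.den : ℚ) := (Rat.num_div_den q).symm
      have h3 : (q.den : ℚ) ≠ 0 := by exact_mod_cast q.pos.ne'
      have h4 : (e : ℚ) ≠ 0 := by
        intro h
        apply hD0
        rw [he]; push_cast; rw [h]; ring
      rw [ha] at h2
      conv_rhs => rw [h2]
      push_cast
      field_simp
    · intro x _ y _ hxy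
      exact Nat.eq_of_mul_eq_mul_left hDpos hxy
  refine ⟨B.image (fun n => D * n), ?_, ?_, hval⟩
  · rw [nonempty_iff_ne_empty]
    intro h
    rw [h, sum_empty] at hval
    exact absurd hval hq.ne
  · intro n hn
    rw [mem_image] at hn
    obtain ⟨m, hm, rfl⟩ := hn
    exact ⟨Nat.mul_pos hDpos (hB1 m hm).1, (hB1 m hm).2⟩

end Pool.Agent.W11.Hahn
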